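import Pool.Agent.Lib.MP_3c1a32_coL.LDefs
import Pool.Agent.Lib.MP_3c1a32_co.Local
import Pool.Agent.Lib.MP_3c1a32_co.Blocks

/-! MP_3c1a32_co, `μ = 2 (q + 1)`: the facts about a graph that is locally `GQ(q,q)` -/

namespace Pool.Agent.MP3c1a32

variable {V : Type} [Fintype V] {G : SimpleGraph V} {q : ℕ}

theorem base_of_loc (hq : 1 ≤ q) (h : ∀ x, LocGQ G x q q) : Base G q := by
  refine ⟨?_, ?_, ?_, ?_, ?_, ?_⟩
  · intro x y hxy
    have h1 := (h x).nb_card ⟨y, hxy⟩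
    rw [pow_two]
    exact h1
  · intro x y hxy
    exact (h x).two_card hxy
  · intro x y z hxy hxz hyz
    exact (h x).adj_card hxy hxz hyz
  · intro x y z hxy hxz hne hyz
    exact (h x).nonadj_card hxy hxz hne hyz
  · intro x y z a b hxy hxz hyz hxa hya hza hxb hyb hzb hab
    obtain ⟨P, L, I, f, hI, hP, hf, h1, h2, h3⟩ := (h x).exists_map
    obtain ⟨y, rfl⟩ := h2 y hxy
    obtain ⟨z, rfl⟩ := h2 z hxz
    obtain ⟨a, rfl⟩ := h2 a hxa
    obtain ⟨b, rfl⟩ := h2 b hxb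
    obtain ⟨hne, l, hyl, hzl⟩ := (h3 y z).1 hyz
    have ha := hI.triangle hne hyl hzl ((h3 a y).1 hya.symm) ((h3 a z).1 hza.symm)
    have hb := hI.triangle hne hyl hzl ((h3 b y).1 hyb.symm) ((h3 b z).1 hzb.symm)
    exact (h3 a b).2 ⟨fun e => hab (congrArg f e), l, ha, hb⟩
  · intro x y z w hxy hxz hyz hxw
    obtain ⟨P, L, I, f, hI, hP, hf, h1, h2, h3⟩ := (h x).exists_map
    obtain ⟨y, rfl⟩ := h2 y hxy
    obtain ⟨z, rfl⟩ := h2 z hxz
    obtain ⟨w, rfl⟩ := h2 w hxw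
    obtain ⟨-, l, hyl, hzl⟩ := (h3 y z).1 hyz
    have key : ∀ (a b : P) (m : L), I a m → I b m → f a = f b ∨ G.Adj (f a) (f b) := by
      intro a b m ha hb
      by_cases hab : a = b
      · exact Or.inl (congrArg f hab)
      · exact Or.inr ((h3 a b).2 ⟨hab, m, ha, hb⟩)
    by_cases hw : I w l
    · exact ⟨f w, h1 w, key w y l hw hyl, key w z l hw hzl, Or.inl rfl⟩
    · obtain ⟨m, ⟨hwm, u, hum, hul⟩, -⟩ := hI.proj w l hw
      exact ⟨f u, h1 u, key u y l hul hyl, key u z l hul hzl, key u w m hum hwm⟩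

end Pool.Agent.MP3c1a32
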