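import Pool.Agent.Lib.MP_3c1a32_coL.LDefs

/-! MP_3c1a32_co, `μ = 2 (q + 1)`: the common neighbours of two vertices at distance two -/

namespace Pool.Agent.MP3c1a32

variable {V : Type} [Finite V] {G : SimpleGraph V} {q : ℕ}

/-- no triangle in a `μ`-graph -/
theorem Base.mu_tri (h : Base G q) {x x' z₁ z₂ z₃ : V} (hne : x ≠ x') (hn : ¬ G.Adj x x')
    (h1 : G.Adj x z₁) (h1' : G.Adj x' z₁) (h2 : G.Adj x z₂) (h2' : G.Adj x' z₂)
    (h3 : G.Adj x z₃) (h3' : G.Adj x' z₃) (h12 : G.Adj z₁ z₂) (h13 : G.Adj z₁ z₃)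
    (h23 : G.Adj z₂ z₃) : False :=
  hn (h.diamond z₁ z₂ z₃ x x' h12 h13 h23 h1.symm h2.symm h3.symm h1'.symm h2'.symm h3'.symm hne)

/-- two nonadjacent vertices `z`, `z'` of the `μ`-graph of `x`, `x'` have all their common
neighbours in the neighbourhood of `x` inside the `μ`-graph -/
theorem Base.mu_common (h : Base G q) (hm : MuLow G q) {x x' z z' u : V} (hne : x ≠ x')
    (hn : ¬ G.Adj x x') (h1 : G.Adj x z) (h1' : G.Adj x' z) (h2 : G.Adj x z')
    (h2' : G.Adj x' z') (hz : z ≠ z') (hzn : ¬ G.Adj z z') (hu : G.Adj x u)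
    (huz : G.Adj u z) (huz' : G.Adj u z') : G.Adj x' u := by
  classical
  have := Fintype.ofFinite V
  set M : Finset V := Finset.univ.filter (fun w => G.Adj x w ∧ G.Adj x' w) with hMd
  have memM : ∀ w, w ∈ M ↔ G.Adj x w ∧ G.Adj x' w := by
    intro w
    simp [hMd]
  have hM : M.card = 2 * (q + 1) := by
    have h0 := hm x x' hne hn ⟨z, h1, h1'⟩
    rw [← h0, ← Set.ncard_coe_finset]
    congr 1
    ext w
    simp [hMd]
  have hN : ∀ v ∈ M, (M.filter (fun w => G.Adj v w)).card = q + 1 := by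
    intro v hv
    have hv' := (memM v).1 hv
    have h0 := h.nonadj v x x' hv'.1.symm hv'.2.symm hne hn
    rw [← h0, ← Set.ncard_coe_finset]
    congr 1
    ext w
    simp only [Finset.coe_filter, memM, Set.mem_ofPred_eq]
    tauto
  have hzM : z ∈ M := (memM z).2 ⟨h1, h1'⟩
  have hz'M : z' ∈ M := (memM z').2 ⟨h2, h2'⟩
  set S : Finset V := M.filter (fun w => w ≠ z ∧ ¬ G.Adj z w) with hSd
  have hS : S.card = q := by
    have e1 := Finset.card_filter_add_card_filter_not (s := M) (fun w => G.Adj z w)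
    have e2 : M.filter (fun w => ¬ G.Adj z w) = insert z S := by
      ext w
      simp only [hSd, Finset.mem_filter, Finset.mem_insert]
      constructor
      · rintro ⟨ha, hb⟩
        by_cases hw : w = z
        · exact Or.inl hw
        · exact Or.inr ⟨ha, hw, hb⟩
      · rintro (rfl | ⟨ha, _, hb⟩)
        · exact ⟨hzM, G.loopless.irrefl _⟩
        · exact ⟨ha, hb⟩
    have e3 : (insert z S).card = S.card + 1 := by
      apply Finset.card_insert_of_notMem
      simp [hSd]
    rw [e2, e3, hN z hzM, hM] at e1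
    omega
  have hz'S : z' ∈ S := by
    simp only [hSd, Finset.mem_filter]
    exact ⟨hz'M, Ne.symm hz, hzn⟩
  have key : ∑ w ∈ S, ((M.filter (fun v => G.Adj z v)).filter (fun v => G.Adj v w)).card
      = q * (q + 1) := by
    have e1 := Finset.sum_card_bipartiteAbove_eq_sum_card_bipartiteBelow
      (s := M.filter (fun v => G.Adj z v)) (t := S) (fun v w => G.Adj v w)
    have e2 : ∀ v ∈ M.filter (fun v => G.Adj z v),
        (Finset.bipartiteAbove (fun v w => G.Adj v w) S v).card = q := by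
      intro v hv
      rw [Finset.mem_filter] at hv
      have hvM := (memM v).1 hv.1
      have e3 : Finset.bipartiteAbove (fun v w => G.Adj v w) S v
          = (M.filter (fun w => G.Adj v w)).erase z := by
        ext w
        simp only [Finset.bipartiteAbove, hSd, Finset.mem_filter, Finset.mem_erase]
        constructor
        · rintro ⟨⟨ha, hb, _⟩, hd⟩
          exact ⟨hb, ha, hd⟩
        · rintro ⟨hb, ha, hd⟩
          refine ⟨⟨ha, hb, ?_⟩, hd⟩
          intro hzw
          have hw := (memM w).1 ha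
          exact h.mu_tri hne hn h1 h1' hvM.1 hvM.2 hw.1 hw.2 hv.2 hzw hd
      rw [e3, Finset.card_erase_of_mem, hN v hv.1]
      · omega
      · rw [Finset.mem_filter]
        exact ⟨hzM, hv.2.symm⟩
    rw [Finset.sum_congr rfl e2, Finset.sum_const, hN z hzM, smul_eq_mul] at e1
    rw [mul_comm q, e1]
    rfl
  have hle : ∀ w ∈ S, ((M.filter (fun v => G.Adj z v)).filter (fun v => G.Adj v w)).card
      ≤ q + 1 := by
    intro w hw
    simp only [hSd, Finset.mem_filter] at hw
    have hwM := (memM w).1 hw.1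
    have h0 := h.nonadj x z w h1 hwM.1 (Ne.symm hw.2.1) hw.2.2
    rw [← h0, ← Set.ncard_coe_finset]
    apply Set.ncard_le_ncard _ (Set.toFinite _)
    intro v hv
    simp only [Finset.coe_filter, Finset.mem_filter, memM, Set.mem_ofPred_eq] at hv ⊢
    exact ⟨hv.1.1.1, hv.1.2, hv.2.symm⟩
  have heq : ((M.filter (fun v => G.Adj z v)).filter (fun v => G.Adj v z')).card = q + 1 := by
    by_contra hne'
    have hlt := lt_of_le_of_ne (hle z' hz'S) hne'
    have h0 := Finset.sum_lt_sum hle ⟨z', hz'S, hlt⟩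
    rw [key, Finset.sum_const, hS, smul_eq_mul] at h0
    exact lt_irrefl _ h0
  have h0 := h.nonadj x z z' h1 h2 hz hzn
  have hsub : (((M.filter (fun v => G.Adj z v)).filter (fun v => G.Adj v z') : Finset V) : Set V)
      ⊆ {w | G.Adj x w ∧ G.Adj z w ∧ G.Adj z' w} := by
    intro v hv
    simp only [Finset.coe_filter, Finset.mem_filter, memM, Set.mem_ofPred_eq] at hv ⊢
    exact ⟨hv.1.1.1, hv.1.2, hv.2.symm⟩
  have hset := Set.eq_of_subset_of_ncard_le hsub
    (by rw [h0, Set.ncard_coe_finset, heq]) (Set.toFinite _)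
  have hmem : u ∈ {w | G.Adj x w ∧ G.Adj z w ∧ G.Adj z' w} := ⟨hu, huz.symm, huz'.symm⟩
  rw [← hset] at hmem
  simp only [Finset.coe_filter, Finset.mem_filter, memM, Set.mem_ofPred_eq] at hmem
  exact hmem.1.1.2

/-- two nonadjacent vertices of a `μ`-graph have the same neighbours in it -/
theorem Base.mu_same (h : Base G q) (hm : MuLow G q) {x x' z z' u : V} (hne : x ≠ x')
    (hn : ¬ G.Adj x x') (h1 : G.Adj x z) (h1' : G.Adj x' z) (h2 : G.Adj x z')
    (h2' : G.Adj x' z') (hz : z ≠ z') (hzn : ¬ G.Adj z z') (hu : G.Adj x u)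
    (hu' : G.Adj x' u) (huz : G.Adj u z) : G.Adj u z' := by
  have e1 := h.nonadj z x x' h1.symm h1'.symm hne hn
  have e2 := h.nonadj x z z' h1 h2 hz hzn
  have hsub : {w | G.Adj x w ∧ G.Adj z w ∧ G.Adj z' w}
      ⊆ {w | G.Adj z w ∧ G.Adj x w ∧ G.Adj x' w} := by
    rintro w ⟨ha, hb, hc⟩
    exact ⟨hb, ha, h.mu_common hm hne hn h1 h1' h2 h2' hz hzn ha hb.symm hc.symm⟩
  have hset := Set.eq_of_subset_of_ncard_le hsub (by rw [e1, e2]) (Set.toFinite _)
  have hmem : u ∈ {w | G.Adj z w ∧ G.Adj x w ∧ G.Adj x' w} := ⟨huz.symm, hu, hu'⟩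
  rw [← hset] at hmem
  exact hmem.2.2.symm

end Pool.Agent.MP3c1a32
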