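import Pool.Agent.Lib.MP_3c1a32_coL.LB

/-! MP_3c1a32_co, `μ = 2 (q + 1)`: hyperbolic lines do not depend on the neighbourhood -/

namespace Pool.Agent.MP3c1a32

variable {V : Type} [Finite V] {G : SimpleGraph V} {q : ℕ}

theorem Base.Ln_iff (h : Base G q) (hm : MuLow G q) (hq : 2 ≤ q) {y z z' c : V} (hyz : G.Adj y z)
    (hyz' : G.Adj y z') (hne : z ≠ z') (hn : ¬ G.Adj z z') (hyc : G.Adj y c) :
    Ln G y z z' c ↔ ∀ x, G.Adj z x → G.Adj z' x → G.Adj c x := by
  have hB := h.nonadj y z z' hyz hyz' hne hn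
  obtain ⟨b, b', hb, hb', hbb⟩ := (Set.one_lt_ncard_iff (Set.toFinite _)).1
    (show 1 < {w | G.Adj y w ∧ G.Adj z w ∧ G.Adj z' w}.ncard by rw [hB]; omega)
  obtain ⟨b1, b2, b3⟩ := hb
  obtain ⟨b1', b2', b3'⟩ := hb'
  have hpair : ∀ w w', G.Adj y w → G.Adj z w → G.Adj z' w → G.Adj y w' → G.Adj z w' →
      G.Adj z' w' → ¬ G.Adj w w' := by
    intro w w' a1 a2 a3 c1 c2 c3 hww
    exact hn (h.diamond y w w' z z' a1 c1 hww hyz a2.symm c2.symm hyz' a3.symm c3.symm hne)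
  constructor
  · rintro ⟨-, hL⟩ x hzx hz'x
    have hcB : ∀ w, G.Adj y w → G.Adj z w → G.Adj z' w → G.Adj w c := by
      intro w a1 a2 a3
      rcases hL w a1 (Or.inr a2.symm) (Or.inr a3.symm) with h1 | h1
      · exfalso
        obtain ⟨w', d1, d2, d3, d4⟩ : ∃ w', w' ≠ w ∧ G.Adj y w' ∧ G.Adj z w' ∧ G.Adj z' w' := by
          by_cases hbw : b = w
          · exact ⟨b', fun h2 => hbb (hbw.trans h2.symm), b1', b2', b3'⟩
          · exact ⟨b, hbw, b1, b2, b3⟩
        rcases hL w' d2 (Or.inr d3.symm) (Or.inr d4.symm) with h2 | h2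
        · exact d1 (h2.trans h1.symm)
        · rw [← h1] at h2
          exact hpair w' w d2 d3 d4 a1 a2 a3 h2
      · exact h1
    by_cases hcz : c = z
    · rw [hcz]; exact hzx
    by_cases hyx : G.Adj y x
    · exact (hcB x hyx hzx hz'x).symm
    by_cases hxy : x = y
    · rw [hxy]; exact hyc.symm
    have hBx : ∀ w, G.Adj y w → G.Adj z w → G.Adj z' w → G.Adj w x := fun w a1 a2 a3 =>
      h.mu_same hm hne hn hyz.symm hyz'.symm hzx hz'x (Ne.symm hxy) hyx a2 a3 a1.symm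
    have hbn : ¬ G.Adj b b' := hpair b b' b1 b2 b3 b1' b2' b3'
    have hcb := hcB b b1 b2 b3
    have hcb' := hcB b' b1' b2' b3'
    have hzc : ¬ G.Adj z c := fun h1 =>
      h.mu_tri hbb hbn b2.symm b2'.symm b1.symm b1'.symm hcb hcb' hyz.symm h1 hyc
    exact (h.mu_same hm hbb hbn b2.symm b2'.symm hcb hcb' (Ne.symm hcz) hzc
      (hBx b b1 b2 b3) (hBx b' b1' b2' b3') hzx.symm).symm
  · intro hall
    refine ⟨hyc, fun x hyx h1 h2 => ?_⟩
    rcases h1 with h1 | h1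
    · rcases h2 with h2 | h2
      · exact absurd (h1.symm.trans h2) hne
      · rw [h1] at h2; exact absurd h2 hn
    · rcases h2 with h2 | h2
      · rw [h2] at h1; exact absurd h1.symm hn
      · exact Or.inr (hall x h1.symm h2.symm).symm

end Pool.Agent.MP3c1a32
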