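import Pool.Agent.Lib.MP_3c1a32_co.Defs

/-! MP_3c1a32_co, graphs that are locally `GQ(q,q)` with `μ = 2 (q + 1)`: definitions -/

namespace Pool.Agent.MP3c1a32

/-! ### abstract part: spaces with a null polarity -/

/-- the line through `a` and `b`: the points perpendicular to everything that is perpendicular to
`a` and `b` -/
def ln {P : Type*} (r : P → P → Prop) (a b : P) : Set P := {w | ∀ x, r x a → r x b → r x w}

/-- the axioms of a space with a null polarity that we use; `r` is the perpendicularity -/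
structure NPS {P : Type*} (r : P → P → Prop) : Prop where
  refl : ∀ a, r a a
  symm : ∀ a b, r a b → r b a
  two : ∀ a b, a ≠ b → ∃ x y, x ≠ y ∧ r x a ∧ r x b ∧ r y a ∧ r y b
  reg : ∀ a b x y w c, a ≠ b → x ≠ y → r x a → r x b → r y a → r y b → r w a → r w b →
    r c x → r c y → r c w
  proj : ∀ a b c, a ≠ b → ∃ w, w ∈ ln r a b ∧ r w c
  three : ∀ a b, a ≠ b → ∃ w, w ∈ ln r a b ∧ w ≠ a ∧ w ≠ b

/-- a quadrangle `o u o' u'` in the plane of the points perpendicular to `p`, off the line `ℓ`,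
whose sides `oo'`, `uu'` pass through `e`, and `ou`, `uo'`, `o'u'`, `ou'` through `a`, `b`, `c`,
`s` -/
def Quad {P : Type*} (r : P → P → Prop) (ℓ : Set P) (p e a b c s : P) : Prop :=
  ∃ o u o' u', r p o ∧ r p u ∧ r p o' ∧ r p u' ∧ o ∉ ℓ ∧ u ∉ ℓ ∧ o' ∉ ℓ ∧ u' ∉ ℓ ∧
    o ≠ u ∧ u ≠ o' ∧ o' ≠ u' ∧ o ≠ o' ∧ u ≠ u' ∧ o ≠ u' ∧
    a ∈ ln r o u ∧ b ∈ ln r u o' ∧ c ∈ ln r o' u' ∧ e ∈ ln r o o' ∧ e ∈ ln r u u' ∧
    s ∈ ln r o u'

/-- `ℓ` is a totally isotropic line -/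
def TI {P : Type*} (r : P → P → Prop) (ℓ : Set P) : Prop :=
  ∀ p ∈ ℓ, ∀ p' ∈ ℓ, p ≠ p' → ∀ w, w ∈ ℓ ↔ r p w ∧ r p' w

/-! ### graph part -/

/-- the facts about a graph that is locally `GQ(q,q)` that we use -/
structure Base {V : Type} (G : SimpleGraph V) (q : ℕ) : Prop where
  deg : ∀ x y, G.Adj x y → {z | G.Adj x z}.ncard = (q + 1) * (q ^ 2 + 1)
  two : ∀ x y, G.Adj x y → {z | G.Adj x z ∧ G.Adj y z}.ncard = q * (q + 1)
  tri : ∀ x y z, G.Adj x y → G.Adj x z → G.Adj y z →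
    {w | G.Adj x w ∧ G.Adj y w ∧ G.Adj z w}.ncard = q - 1
  nonadj : ∀ x y z, G.Adj x y → G.Adj x z → y ≠ z → ¬ G.Adj y z →
    {w | G.Adj x w ∧ G.Adj y w ∧ G.Adj z w}.ncard = q + 1
  diamond : ∀ x y z a b, G.Adj x y → G.Adj x z → G.Adj y z →
    G.Adj x a → G.Adj y a → G.Adj z a → G.Adj x b → G.Adj y b → G.Adj z b → a ≠ b → G.Adj a b
  proj : ∀ x y z w, G.Adj x y → G.Adj x z → G.Adj y z → G.Adj x w →
    ∃ u, G.Adj x u ∧ (u = y ∨ G.Adj u y) ∧ (u = z ∨ G.Adj u z) ∧ (u = w ∨ G.Adj u w)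

/-- two vertices at distance two have `2 (q + 1)` common neighbours -/
def MuLow {V : Type} (G : SimpleGraph V) (q : ℕ) : Prop :=
  ∀ x y, x ≠ y → ¬ G.Adj x y → (∃ z, G.Adj x z ∧ G.Adj y z) →
    {z | G.Adj x z ∧ G.Adj y z}.ncard = 2 * (q + 1)

/-- perpendicularity in the neighbourhood of `y` -/
def perp {V : Type} (G : SimpleGraph V) (y : V) (a b : {z // G.Adj y z}) : Prop :=
  a = b ∨ G.Adj a.1 b.1

/-- `w` is on the line through `a` and `b` in the neighbourhood of `y` -/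
def Ln {V : Type} (G : SimpleGraph V) (y a b w : V) : Prop :=
  G.Adj y w ∧ ∀ x, G.Adj y x → (x = a ∨ G.Adj x a) → (x = b ∨ G.Adj x b) → (x = w ∨ G.Adj x w)

/-- the quadrangle condition in the neighbourhood of `y ∈ C`, with points adjacent to `y` and
`p ∈ C` and off the block `C` -/
def QuadV {V : Type} (G : SimpleGraph V) (C : Set V) (y p e a b c s : V) : Prop :=
  ∃ o u o' u', (G.Adj y o ∧ G.Adj p o ∧ o ∉ C) ∧ (G.Adj y u ∧ G.Adj p u ∧ u ∉ C) ∧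
    (G.Adj y o' ∧ G.Adj p o' ∧ o' ∉ C) ∧ (G.Adj y u' ∧ G.Adj p u' ∧ u' ∉ C) ∧
    o ≠ u ∧ u ≠ o' ∧ o' ≠ u' ∧ o ≠ o' ∧ u ≠ u' ∧ o ≠ u' ∧
    Ln G y o u a ∧ Ln G y u o' b ∧ Ln G y o' u' c ∧ Ln G y o o' e ∧ Ln G y u u' e ∧
    Ln G y o u' s

/-- `C` is a block: a clique with `q + 2` vertices -/
def IsBlock {V : Type} (G : SimpleGraph V) (q : ℕ) (C : Set V) : Prop :=
  C.ncard = q + 2 ∧ ∀ a ∈ C, ∀ b ∈ C, a ≠ b → G.Adj a b

end Pool.Agent.MP3c1a32
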