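import Pool.Agent.Lib.MP_3c1a32_coL.LB

/-! MP_3c1a32_co, `μ = 2 (q + 1)`: every point is perpendicular to a point of every line -/

namespace Pool.Agent.MP3c1a32

variable {V : Type} [Finite V] {G : SimpleGraph V} {q : ℕ}

/-- a vertex `c` adjacent to `y`, not to `y'`, has exactly two neighbours in the `μ`-graph of
`y`, `y'`, and they are adjacent -/
theorem Base.exists_nb (h : Base G q) (hm : MuLow G q) (hq : 2 ≤ q) {y y' z c : V} (hne : y ≠ y')
    (hn : ¬ G.Adj y y') (h1 : G.Adj y z) (h1' : G.Adj y' z) (hc : G.Adj y c)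
    (hc' : ¬ G.Adj y' c) : ∃ u u', G.Adj y u ∧ G.Adj y' u ∧ G.Adj y u' ∧ G.Adj y' u' ∧
      G.Adj u u' ∧ G.Adj c u ∧ G.Adj c u' := by
  classical
  have : Fintype V := Fintype.ofFinite V
  have hcard : ∀ (p : V → Prop) [DecidablePred p],
      {x | p x}.ncard = (Finset.univ.filter p).card := fun p _ => by
    rw [← Set.ncard_coe_finset]
    congr 1
    ext x
    simp
  set A : Finset V := Finset.univ.filter fun c => G.Adj y c ∧ ¬ G.Adj y' c with hA
  set M : Finset V := Finset.univ.filter fun z => G.Adj y z ∧ G.Adj y' z with hM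
  have hMc : M.card = 2 * (q + 1) := by
    rw [hM]
    exact (hcard _).symm.trans (hm y y' hne hn ⟨z, h1, h1'⟩)
  have hAM : A.card + M.card = (q + 1) * (q ^ 2 + 1) := by
    rw [← h.deg y z h1, hcard]
    have e : (Finset.univ.filter fun x => G.Adj y x) = A ∪ M := by
      ext x
      simp only [hA, hM, Finset.mem_union, Finset.mem_filter, Finset.mem_univ, true_and]
      tauto
    rw [e, Finset.card_union_of_disjoint]
    rw [Finset.disjoint_left]
    intro x hx hx'
    simp only [hA, hM, Finset.mem_filter, Finset.mem_univ, true_and] at hx hx'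
    exact hx.2 hx'.2
  -- each vertex of `A` has at most two neighbours in `M`, and they are adjacent
  have hadj : ∀ c ∈ A, ∀ u ∈ M, ∀ u' ∈ M, G.Adj c u → G.Adj c u' → u ≠ u' → G.Adj u u' := by
    intro c hc u hu u' hu' hcu hcu' huu
    simp only [hA, hM, Finset.mem_filter, Finset.mem_univ, true_and] at hc hu hu'
    by_contra hcon
    exact hc.2 (h.mu_common hm hne hn hu.1 hu.2 hu'.1 hu'.2 huu hcon hc.1 hcu hcu')
  have hle : ∀ c ∈ A, (M.filter fun z => G.Adj c z).card ≤ 2 := by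
    intro c hc
    by_contra hcon
    push Not at hcon
    obtain ⟨a, ha, b, hb, d, hd, hab, had, hbd⟩ := Finset.two_lt_card.1 hcon
    have ha' := Finset.mem_filter.1 ha
    have hb' := Finset.mem_filter.1 hb
    have hd' := Finset.mem_filter.1 hd
    have e1 := hadj c hc a ha'.1 b hb'.1 ha'.2 hb'.2 hab
    have e2 := hadj c hc a ha'.1 d hd'.1 ha'.2 hd'.2 had
    have e3 := hadj c hc b hb'.1 d hd'.1 hb'.2 hd'.2 hbd
    have f1 := (Finset.mem_filter.1 ha'.1).2
    have f2 := (Finset.mem_filter.1 hb'.1).2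
    have f3 := (Finset.mem_filter.1 hd'.1).2
    exact h.mu_tri hne hn f1.1 f1.2 f2.1 f2.2 f3.1 f3.2 e1 e2 e3
  -- double counting
  have hz : ∀ z ∈ M, (A.filter fun c => G.Adj c z).card + (q + 1) = q * (q + 1) := by
    intro z hz
    have hz' := (Finset.mem_filter.1 hz).2
    rw [← h.two y z hz'.1, hcard, ← h.nonadj z y y' hz'.1.symm hz'.2.symm hne hn, hcard]
    have e : (Finset.univ.filter fun x => G.Adj y x ∧ G.Adj z x) =
        (A.filter fun c => G.Adj c z) ∪
          Finset.univ.filter fun w => G.Adj z w ∧ G.Adj y w ∧ G.Adj y' w := by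
      ext x
      simp only [hA, Finset.mem_union, Finset.mem_filter, Finset.mem_univ, true_and]
      rw [G.adj_comm x z]
      tauto
    rw [e, Finset.card_union_of_disjoint]
    rw [Finset.disjoint_left]
    intro x hx hx'
    simp only [hA, Finset.mem_filter, Finset.mem_univ, true_and] at hx hx'
    exact hx.1.2 hx'.2.2
  have hsum : ∑ c ∈ A, (M.filter fun z => G.Adj c z).card =
      ∑ z ∈ M, (A.filter fun c => G.Adj c z).card :=
    Finset.sum_card_bipartiteAbove_eq_sum_card_bipartiteBelow _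
  have hsum2 : ∑ z ∈ M, (A.filter fun c => G.Adj c z).card = M.card * ((q + 1) * (q - 1)) := by
    rw [Finset.sum_const_nat]
    intro z hz'
    have h2 := hz z hz'
    obtain ⟨p, rfl⟩ : ∃ p, q = p + 1 := ⟨q - 1, by omega⟩
    rw [Nat.add_sub_cancel]
    nlinarith
  have hA2 : A.card = (q + 1) * (q + 1) * (q - 1) := by
    rw [hMc] at hAM
    obtain ⟨p, rfl⟩ : ∃ p, q = p + 1 := ⟨q - 1, by omega⟩
    rw [Nat.add_sub_cancel]
    nlinarith
  have hsum3 : ∑ c ∈ A, (M.filter fun z => G.Adj c z).card = ∑ _c ∈ A, 2 := by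
    rw [hsum, hsum2, hMc, Finset.sum_const, smul_eq_mul, hA2]
    ring
  have hall := (Finset.sum_eq_sum_iff_of_le hle).1 hsum3 c (by
    rw [hA, Finset.mem_filter]
    exact ⟨Finset.mem_univ _, hc, hc'⟩)
  obtain ⟨u, u', huu, he⟩ := Finset.card_eq_two.1 hall
  have hu : u ∈ M.filter fun z => G.Adj c z := by
    rw [he]
    simp
  have hu' : u' ∈ M.filter fun z => G.Adj c z := by
    rw [he]
    simp
  have k1 := Finset.mem_filter.1 hu
  have k2 := Finset.mem_filter.1 hu'
  have k3 := (Finset.mem_filter.1 k1.1).2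
  have k4 := (Finset.mem_filter.1 k2.1).2
  exact ⟨u, u', k3.1, k3.2, k4.1, k4.2, hadj c (by
    rw [hA, Finset.mem_filter]
    exact ⟨Finset.mem_univ _, hc, hc'⟩) u k1.1 u' k2.1 k1.2 k2.2 huu, k1.2, k2.2⟩

theorem Base.proj' (h : Base G q) (hm : MuLow G q) (hq : 2 ≤ q) (y : V)
    (a b c : {z // G.Adj y z}) (hab : a ≠ b) : ∃ w, w ∈ ln (perp G y) a b ∧ perp G y w c := by
  obtain ⟨a, ha⟩ := a
  obtain ⟨b, hb⟩ := b
  obtain ⟨c, hc⟩ := c
  have hab' : a ≠ b := fun h0 => hab (Subtype.ext h0)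
  -- perpendicularity in terms of vertices
  have hp : ∀ (u v : V) (hu : G.Adj y u) (hv : G.Adj y v),
      perp G y ⟨u, hu⟩ ⟨v, hv⟩ ↔ (u = v ∨ G.Adj u v) := fun u v hu hv => by
    unfold perp
    rw [Subtype.mk.injEq]
  suffices hs : ∃ w, ∃ hw : G.Adj y w, (∀ x, G.Adj y x → (x = a ∨ G.Adj x a) →
      (x = b ∨ G.Adj x b) → (x = w ∨ G.Adj x w)) ∧ (w = c ∨ G.Adj w c) by
    obtain ⟨w, hw, h1, h2⟩ := hs
    refine ⟨⟨w, hw⟩, ?_, (hp w c hw hc).2 h2⟩
    rintro ⟨x, hx⟩ h3 h4
    exact (hp x w hx hw).2 (h1 x hx ((hp x a hx ha).1 h3) ((hp x b hx hb).1 h4))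
  by_cases hadj : G.Adj a b
  · obtain ⟨u, h1, h2, h3, h4⟩ := h.proj y a b c ha hb hadj hc
    refine ⟨u, h1, fun x hx hxa hxb => ?_, h4⟩
    rcases hxa with rfl | hxa
    · rcases h2 with rfl | h2
      · exact Or.inl rfl
      · exact Or.inr h2.symm
    rcases hxb with rfl | hxb
    · rcases h3 with rfl | h3
      · exact Or.inl rfl
      · exact Or.inr h3.symm
    rcases h2 with rfl | h2
    · exact Or.inr hxa
    rcases h3 with rfl | h3
    · exact Or.inr hxb
    by_cases hxu : x = u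
    · exact Or.inl hxu
    · exact Or.inr (h.diamond y a b x u ha hb hadj hx hxa.symm hxb.symm h1 h2.symm h3.symm hxu)
  -- the vertex `y'`
  obtain ⟨y', hay, hby, hyy, hyn⟩ : ∃ y', G.Adj a y' ∧ G.Adj b y' ∧ y' ≠ y ∧ ¬ G.Adj y y' := by
    by_contra hcon
    push Not at hcon
    have h1 := hm a b hab' hadj ⟨y, ha.symm, hb.symm⟩
    have h2 := h.nonadj y a b ha hb hab' hadj
    have h3 : {z | G.Adj a z ∧ G.Adj b z} ⊆
        insert y {w | G.Adj y w ∧ G.Adj a w ∧ G.Adj b w} := by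
      rintro z ⟨hz1, hz2⟩
      by_cases hzy : z = y
      · exact Or.inl hzy
      · exact Or.inr ⟨hcon z hz1 hz2 hzy, hz1, hz2⟩
    have h4 := Set.ncard_le_ncard h3 (Set.toFinite _)
    have h5 := Set.ncard_insert_le y {w | G.Adj y w ∧ G.Adj a w ∧ G.Adj b w}
    omega
  -- points of the `μ`-graph of `y`, `y'` not adjacent to `a`
  have key : ∀ w, G.Adj y w → G.Adj y' w → (w = a ∨ ¬ G.Adj w a) → ∀ x, G.Adj y x →
      (x = a ∨ G.Adj x a) → (x = b ∨ G.Adj x b) → (x = w ∨ G.Adj x w) := by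
    intro w hw hw' hwa x hx hxa hxb
    have xa : G.Adj x a := by
      rcases hxa with rfl | hxa
      · rcases hxb with rfl | hxb
        · exact (hab' rfl).elim
        · exact (hadj hxb).elim
      · exact hxa
    have xb : G.Adj x b := by
      rcases hxb with rfl | hxb
      · exact (hadj xa.symm).elim
      · exact hxb
    by_cases hwa' : w = a
    · rw [hwa']
      exact Or.inr xa
    · have hwn : ¬ G.Adj w a := hwa.resolve_left hwa'
      have xy' : G.Adj x y' := h.mu_same hm hab' hadj ha.symm hb.symm hay hby (Ne.symm hyy) hyn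
        xa.symm xb.symm hx.symm
      exact Or.inr (h.mu_same hm (Ne.symm hyy) hyn ha hay.symm hw hw' (Ne.symm hwa')
        (fun h0 => hwn h0.symm) hx xy'.symm xa)
  by_cases hcy : G.Adj y' c
  · by_cases hca : c = a ∨ G.Adj c a
    · refine ⟨a, ha, key a ha hay.symm (Or.inl rfl), ?_⟩
      rcases hca with hca | hca
      · exact Or.inl hca.symm
      · exact Or.inr hca.symm
    · rw [not_or] at hca
      exact ⟨c, hc, key c hc hcy (Or.inr hca.2), Or.inl rfl⟩
  · obtain ⟨u, u', k1, k2, k3, k4, k5, k6, k7⟩ := h.exists_nb hm hq (Ne.symm hyy) hyn ha hay.symm hc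
      hcy
    by_cases hau : a = u
    · subst hau
      exact ⟨a, ha, key a ha hay.symm (Or.inl rfl), Or.inr k6.symm⟩
    by_cases hau' : a = u'
    · subst hau'
      exact ⟨a, ha, key a ha hay.symm (Or.inl rfl), Or.inr k7.symm⟩
    by_cases hua : G.Adj u a
    · refine ⟨u', k3, key u' k3 k4 (Or.inr fun h0 => ?_), Or.inr k7.symm⟩
      exact h.mu_tri (Ne.symm hyy) hyn ha hay.symm k1 k2 k3 k4 hua.symm h0.symm k5
    · exact ⟨u, k1, key u k1 k2 (Or.inr hua), Or.inr k6.symm⟩

end Pool.Agent.MP3c1a32
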