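import Pool.Agent.Lib.MP_3c1a32_coL.LB

/-! MP_3c1a32_co, `μ = 2 (q + 1)`: all pairs of points of a neighbourhood are regular -/

namespace Pool.Agent.MP3c1a32

variable {V : Type} [Finite V] {G : SimpleGraph V} {q : ℕ}

omit [Finite V] in
theorem perp_symm' {y : V} {a b : {z // G.Adj y z}} (h : perp G y a b) : perp G y b a := by
  rcases h with h | h
  · exact Or.inl h.symm
  · exact Or.inr h.symm

omit [Finite V] in
theorem perp_refl' {y : V} (a : {z // G.Adj y z}) : perp G y a a := Or.inl rfl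

omit [Finite V] in
/-- two points perpendicular to two adjacent points are perpendicular -/
theorem Base.perp_of_adj (h : Base G q) (y : V) (a b u v : {z // G.Adj y z}) (hab : G.Adj a.1 b.1)
    (h1 : perp G y u a) (h2 : perp G y u b) (h3 : perp G y v a) (h4 : perp G y v b) :
    perp G y u v := by
  rcases h1 with rfl | h1
  · exact perp_symm' h3
  rcases h2 with rfl | h2
  · exact perp_symm' h4
  rcases h3 with rfl | h3
  · exact Or.inr h1
  rcases h4 with rfl | h4
  · exact Or.inr h2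
  by_cases huv : u = v
  · exact Or.inl huv
  · exact Or.inr (h.diamond y a.1 b.1 u.1 v.1 a.2 b.2 hab u.2 h1.symm h2.symm v.2 h3.symm h4.symm
      fun e => huv (Subtype.ext e))

omit [Finite V] in
/-- a point perpendicular to two nonadjacent points is adjacent to both -/
theorem adj_of_perp {y : V} {a b u : {z // G.Adj y z}} (hab : a ≠ b) (hn : ¬ G.Adj a.1 b.1)
    (h1 : perp G y u a) (h2 : perp G y u b) : G.Adj u.1 a.1 ∧ G.Adj u.1 b.1 := by
  rcases h1 with rfl | h1
  · rcases h2 with h2 | h2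
    · exact (hab h2).elim
    · exact (hn h2).elim
  · rcases h2 with rfl | h2
    · exact (hn h1.symm).elim
    · exact ⟨h1, h2⟩

omit [Finite V] in
theorem Base.not_adj_of (h : Base G q) {y a b u v : V} (ya : G.Adj y a) (yb : G.Adj y b)
    (yu : G.Adj y u) (yv : G.Adj y v) (hab : a ≠ b) (hn : ¬ G.Adj a b) (h1 : G.Adj u a)
    (h2 : G.Adj u b) (h3 : G.Adj v a) (h4 : G.Adj v b) : ¬ G.Adj u v := fun huv =>
  hn (h.diamond y u v a b yu yv huv ya h1 h3 yb h2 h4 hab)

/-- a vertex of the `μ`-graph of `a`, `b` different from and not adjacent to `y` -/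
theorem Base.exists_far (h : Base G q) (hm : MuLow G q) (hq : 2 ≤ q) {y a b : V}
    (ya : G.Adj y a) (yb : G.Adj y b) (hab : a ≠ b) (hn : ¬ G.Adj a b) :
    ∃ y', G.Adj a y' ∧ G.Adj b y' ∧ y' ≠ y ∧ ¬ G.Adj y y' := by
  by_contra hno
  push Not at hno
  have h1 := hm a b hab hn ⟨y, ya.symm, yb.symm⟩
  have h2 := h.nonadj y a b ya yb hab hn
  have h3 : {z | G.Adj a z ∧ G.Adj b z} ⊆ insert y {w | G.Adj y w ∧ G.Adj a w ∧ G.Adj b w} := by
    rintro z ⟨z1, z2⟩
    by_cases hz : z = y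
    · exact Or.inl hz
    · exact Or.inr ⟨hno z z1 z2 hz, z1, z2⟩
  have h4 := Set.ncard_le_ncard h3 (Set.toFinite _)
  have h5 := Set.ncard_insert_le y {w | G.Adj y w ∧ G.Adj a w ∧ G.Adj b w}
  omega

/-- for `a ≠ b` and `x ≠ x'` in `{a,b}^⊥`, every point perpendicular to `x` and `x'` is
perpendicular to every `w` in `{a,b}^⊥` -/
theorem Base.reg (h : Base G q) (hm : MuLow G q) (hq : 2 ≤ q) (y : V)
    (a b x x' w c : {z // G.Adj y z}) (hab : a ≠ b) (hxx : x ≠ x')
    (h1 : perp G y x a) (h2 : perp G y x b) (h3 : perp G y x' a) (h4 : perp G y x' b)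
    (h5 : perp G y w a) (h6 : perp G y w b) (h7 : perp G y c x) (h8 : perp G y c x') :
    perp G y c w := by
  by_cases hn : G.Adj a.1 b.1
  · have e1 := h.perp_of_adj y a b x x' hn h1 h2 h3 h4
    have e2 : G.Adj x.1 x'.1 := e1.resolve_left hxx
    have e3 := h.perp_of_adj y a b w x hn h5 h6 h1 h2
    have e4 := h.perp_of_adj y a b w x' hn h5 h6 h3 h4
    exact h.perp_of_adj y x x' c w e2 h7 h8 e3 e4
  · by_cases hwx : w = x
    · rw [hwx]
      exact h7
    by_cases hwx' : w = x'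
    · rw [hwx']
      exact h8
    have hab' : a.1 ≠ b.1 := fun e => hab (Subtype.ext e)
    have hxx' : x.1 ≠ x'.1 := fun e => hxx (Subtype.ext e)
    obtain ⟨xa, xb⟩ := adj_of_perp hab hn h1 h2
    obtain ⟨xa', xb'⟩ := adj_of_perp hab hn h3 h4
    obtain ⟨wa, wb⟩ := adj_of_perp hab hn h5 h6
    have nxx : ¬ G.Adj x.1 x'.1 := h.not_adj_of a.2 b.2 x.2 x'.2 hab' hn xa xb xa' xb'
    obtain ⟨cx, cx'⟩ := adj_of_perp hxx nxx h7 h8
    by_cases hca : c = a
    · rw [hca]
      exact Or.inr wa.symm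
    have hca' : c.1 ≠ a.1 := fun e => hca (Subtype.ext e)
    obtain ⟨y', ay, byy, hy, hyn⟩ := h.exists_far hm hq a.2 b.2 hab' hn
    -- every element of `B` is adjacent to `y'`
    have key : ∀ u : {z // G.Adj y z}, G.Adj u.1 a.1 → G.Adj u.1 b.1 → G.Adj y' u.1 := by
      intro u ua ub
      have := h.mu_same hm (x := a.1) (x' := b.1) (z := y) (z' := y') (u := u.1) hab' hn a.2.symm
        b.2.symm ay byy hy.symm hyn ua.symm ub.symm u.2.symm
      exact this.symm
    have hyx := key x xa xb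
    have hyx' := key x' xa' xb'
    have hyw := key w wa wb
    have hyc : G.Adj y' c.1 := h.mu_common hm (x := y) (x' := y') (z := x.1) (z' := x'.1)
      (u := c.1) hy.symm hyn x.2 hyx x'.2 hyx' hxx' nxx c.2 cx cx'
    have hnca : ¬ G.Adj a.1 c.1 := fun hac =>
      h.mu_tri (x := y) (x' := y') (z₁ := x.1) (z₂ := a.1) (z₃ := c.1) hy.symm hyn x.2 hyx a.2
        ay.symm c.2 hyc xa cx.symm hac
    have := h.mu_same hm (x := y) (x' := y') (z := a.1) (z' := c.1) (u := w.1) hy.symm hyn a.2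
      ay.symm c.2 hyc hca'.symm hnca w.2 hyw wa
    exact Or.inr this.symm

/-- every line has at least two perpendicular points -/
theorem Base.exists_two (h : Base G q) (hq : 2 ≤ q) (y : V) (a b : {z // G.Adj y z})
    (hab : a ≠ b) : ∃ x x', x ≠ x' ∧ perp G y x a ∧ perp G y x b ∧ perp G y x' a ∧
      perp G y x' b := by
  by_cases hn : G.Adj a.1 b.1
  · exact ⟨a, b, hab, perp_refl' a, Or.inr hn, Or.inr hn.symm, perp_refl' b⟩
  · have h1 := h.nonadj y a.1 b.1 a.2 b.2 (fun e => hab (Subtype.ext e)) hn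
    have h2 : 1 < {w | G.Adj y w ∧ G.Adj a.1 w ∧ G.Adj b.1 w}.ncard := by omega
    obtain ⟨x, hx, x', hx', hne⟩ := (Set.one_lt_ncard (Set.toFinite _)).1 h2
    exact ⟨⟨x, hx.1⟩, ⟨x', hx'.1⟩, fun e => hne (congrArg Subtype.val e), Or.inr hx.2.1.symm,
      Or.inr hx.2.2.symm, Or.inr hx'.2.1.symm, Or.inr hx'.2.2.symm⟩

/-- every line has at least three points -/
theorem Base.exists_three (h : Base G q) (hm : MuLow G q) (hq : 2 ≤ q) (y : V)
    (a b : {z // G.Adj y z}) (hab : a ≠ b) : ∃ w, w ∈ ln (perp G y) a b ∧ w ≠ a ∧ w ≠ b := by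
  by_cases hn : G.Adj a.1 b.1
  · have h1 := h.tri y a.1 b.1 a.2 b.2 hn
    have h2 : 0 < {w | G.Adj y w ∧ G.Adj a.1 w ∧ G.Adj b.1 w}.ncard := by omega
    obtain ⟨w, hw⟩ := (Set.ncard_pos (Set.toFinite _)).1 h2
    refine ⟨⟨w, hw.1⟩, fun x xa xb => ?_, fun e => ?_, fun e => ?_⟩
    · exact h.perp_of_adj y a b x ⟨w, hw.1⟩ hn xa xb (Or.inr hw.2.1.symm) (Or.inr hw.2.2.symm)
    · have := hw.2.1
      rw [← e] at this
      exact G.loopless.irrefl _ this
    · have := hw.2.2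
      rw [← e] at this
      exact G.loopless.irrefl _ this
  · have hab' : a.1 ≠ b.1 := fun e => hab (Subtype.ext e)
    have h1 := h.nonadj y a.1 b.1 a.2 b.2 hab' hn
    have h2 : 1 < {w | G.Adj y w ∧ G.Adj a.1 w ∧ G.Adj b.1 w}.ncard := by omega
    obtain ⟨x, hx, x', hx', hne⟩ := (Set.one_lt_ncard (Set.toFinite _)).1 h2
    have nxx : ¬ G.Adj x x' := h.not_adj_of a.2 b.2 hx.1 hx'.1 hab' hn hx.2.1.symm hx.2.2.symm
      hx'.2.1.symm hx'.2.2.symm
    have h3 := h.nonadj y x x' hx.1 hx'.1 hne nxx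
    have h4 : ∃ w, w ∈ {w | G.Adj y w ∧ G.Adj x w ∧ G.Adj x' w} ∧ w ≠ a.1 ∧ w ≠ b.1 := by
      by_contra hno
      push Not at hno
      have h5 : {w | G.Adj y w ∧ G.Adj x w ∧ G.Adj x' w} ⊆ ({a.1, b.1} : Set V) := by
        intro w hw
        by_cases hwa : w = a.1
        · exact Or.inl hwa
        · exact Or.inr (hno w hw hwa)
      have h6 := Set.ncard_le_ncard h5 (Set.toFinite _)
      have h7 := Set.ncard_insert_le a.1 ({b.1} : Set V)
      rw [Set.ncard_singleton] at h7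
      omega
    obtain ⟨w, hw, hwa, hwb⟩ := h4
    refine ⟨⟨w, hw.1⟩, fun u ua ub => ?_, fun e => hwa (congrArg Subtype.val e),
      fun e => hwb (congrArg Subtype.val e)⟩
    exact perp_symm' (h.reg hm hq y a b ⟨x, hx.1⟩ ⟨x', hx'.1⟩ u ⟨w, hw.1⟩ hab
      (fun e => hne (congrArg Subtype.val e)) (Or.inr hx.2.1.symm) (Or.inr hx.2.2.symm)
      (Or.inr hx'.2.1.symm) (Or.inr hx'.2.2.symm) ua ub (Or.inr hw.2.1.symm)
      (Or.inr hw.2.2.symm))

end Pool.Agent.MP3c1a32
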