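import Pool.Agent.Lib.MP_3c1a32_coL.LDefs

/-! MP_3c1a32_co: quadrangles in a space with a null polarity -/

namespace Pool.Agent.MP3c1a32

variable {P : Type*} {r : P → P → Prop}

theorem NPS.left_mem (a b : P) : a ∈ ln r a b := fun _ hx _ => hx

theorem NPS.right_mem (a b : P) : b ∈ ln r a b := fun _ _ hx => hx

theorem ln_comm (a b : P) : ln r a b = ln r b a := by
  ext w
  exact ⟨fun h x h1 h2 => h x h2 h1, fun h x h1 h2 => h x h2 h1⟩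

/-- two points determine a line -/
theorem NPS.ln_eq (h : NPS r) {a b c d : P} (hab : a ≠ b) (hcd : c ≠ d) (hc : c ∈ ln r a b)
    (hd : d ∈ ln r a b) : ln r c d = ln r a b := by
  ext w
  constructor
  · intro hw x hxa hxb
    exact hw x (hc x hxa hxb) (hd x hxa hxb)
  · intro hw x hxc hxd
    obtain ⟨u, v, huv, hua, hub, hva, hvb⟩ := h.two a b hab
    exact h.reg u v c d w x huv hcd (h.symm _ _ (hc u hua hub)) (h.symm _ _ (hc v hva hvb))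
      (h.symm _ _ (hd u hua hub)) (h.symm _ _ (hd v hva hvb)) (h.symm _ _ (hw u hua hub))
      (h.symm _ _ (hw v hva hvb)) hxc hxd

/-- a line lies in each plane that contains two of its points -/
theorem NPS.plane_of (h : NPS r) {a b c d x : P} (hab : a ≠ b) (hcd : c ≠ d)
    (hc : c ∈ ln r a b) (hd : d ∈ ln r a b) (hxc : r x c) (hxd : r x d) {w : P}
    (hw : w ∈ ln r a b) : r x w := by
  rw [← h.ln_eq hab hcd hc hd] at hw
  exact hw x hxc hxd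

/-- at most one plane through three points not on a line -/
theorem NPS.plane_unique (h : NPS r) {a b c x y : P} (hab : a ≠ b) (hc : c ∉ ln r a b)
    (hxa : r x a) (hxb : r x b) (hxc : r x c) (hya : r y a) (hyb : r y b) (hyc : r y c) :
    x = y := by
  by_contra hxy
  apply hc
  intro w hwa hwb
  exact h.symm _ _ (h.reg a b x y w c hab hxy hxa hxb hya hyb hwa hwb (h.symm _ _ hxc)
    (h.symm _ _ hyc))

/-- two lines in a plane meet -/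
theorem NPS.meet (h : NPS r) {a b c d x : P} (hab : a ≠ b) (hcd : c ≠ d) (hxa : r x a)
    (hxb : r x b) (hxc : r x c) (hxd : r x d) : ∃ w, w ∈ ln r a b ∧ w ∈ ln r c d := by
  obtain ⟨x', hx', hx'c, hx'd⟩ : ∃ x', x ≠ x' ∧ r x' c ∧ r x' d := by
    obtain ⟨u, v, huv, huc, hud, hvc, hvd⟩ := h.two c d hcd
    by_cases hxu : x = u
    · exact ⟨v, fun hh => huv (hxu ▸ hh), hvc, hvd⟩
    · exact ⟨u, hxu, huc, hud⟩
  obtain ⟨w, hw, hwx'⟩ := h.proj a b x' hab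
  refine ⟨w, hw, ?_⟩
  intro z hzc hzd
  exact h.symm _ _ (h.reg c d x x' z w hcd hx' hxc hxd hx'c hx'd hzc hzd
    (h.symm _ _ (hw x hxa hxb)) hwx')

/-- two lines that meet are in a plane -/
theorem NPS.coplanar (h : NPS r) {a b c d w : P} (hab : a ≠ b) (hcd : c ≠ d)
    (hw : w ∈ ln r a b) (hw' : w ∈ ln r c d) : ∃ x, r x a ∧ r x b ∧ r x c ∧ r x d := by
  obtain ⟨u, v, huv, hua, hub, hva, hvb⟩ := h.two a b hab
  obtain ⟨u', v', huv', huc, hud, hvc, hvd⟩ := h.two c d hcd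
  obtain ⟨x, hx, hx'⟩ := h.meet (x := w) huv huv' (h.symm _ _ (hw u hua hub))
    (h.symm _ _ (hw v hva hvb)) (h.symm _ _ (hw' u' huc hud)) (h.symm _ _ (hw' v' hvc hvd))
  exact ⟨x, h.symm _ _ (hx a (h.symm _ _ hua) (h.symm _ _ hva)),
    h.symm _ _ (hx b (h.symm _ _ hub) (h.symm _ _ hvb)),
    h.symm _ _ (hx' c (h.symm _ _ huc) (h.symm _ _ hvc)),
    h.symm _ _ (hx' d (h.symm _ _ hud) (h.symm _ _ hvd))⟩

/-- two triangles in the planes of `p` and `p'` whose corresponding sides meet are in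
perspective from a point -/
theorem NPS.concur (h : NPS r) {p p' o u v o₁ u₁ v₁ a b e : P}
    (ho : r p o) (hu : r p u) (hv : r p v) (ho' : ¬ r p' o) (hu' : ¬ r p' u) (hv' : ¬ r p' v)
    (ho₁ : r p' o₁) (hu₁ : r p' u₁) (hv₁ : r p' v₁) (ho₁' : ¬ r p o₁) (hu₁' : ¬ r p u₁)
    (hv₁' : ¬ r p v₁) (hou : o ≠ u) (huv : u ≠ v) (hov : o ≠ v) (hou₁ : o₁ ≠ u₁)
    (huv₁ : u₁ ≠ v₁) (hov₁ : o₁ ≠ v₁) (ha : a ∈ ln r o u) (ha₁ : a ∈ ln r o₁ u₁)
    (hb : b ∈ ln r u v) (hb₁ : b ∈ ln r u₁ v₁) (he : e ∈ ln r o v) (he₁ : e ∈ ln r o₁ v₁)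
    (hvn : v ∉ ln r o u) :
    ∃ O, O ∈ ln r o o₁ ∧ O ∈ ln r u u₁ ∧ O ∈ ln r v v₁ := by
  have hoo : o ≠ o₁ := fun hh => ho' (hh ▸ ho₁)
  have huu : u ≠ u₁ := fun hh => hu' (hh ▸ hu₁)
  have hvv : v ≠ v₁ := fun hh => hv' (hh ▸ hv₁)
  obtain ⟨x, hxo, hxu, hxo₁, hxu₁⟩ := h.coplanar hou hou₁ ha ha₁
  obtain ⟨y, hyu, hyv, hyu₁, hyv₁⟩ := h.coplanar huv huv₁ hb hb₁
  obtain ⟨z, hzo, hzv, hzo₁, hzv₁⟩ := h.coplanar hov hov₁ he he₁
  obtain ⟨w1, hw1, hw1'⟩ := h.meet hoo huu hxo hxo₁ hxu hxu₁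
  obtain ⟨w2, hw2, hw2'⟩ := h.meet huu hvv hyu hyu₁ hyv hyv₁
  obtain ⟨w3, hw3, hw3'⟩ := h.meet hoo hvv hzo hzo₁ hzv hzv₁
  by_cases h13 : w1 = w3
  · exact ⟨w1, hw1, hw1', h13 ▸ hw3'⟩
  exfalso
  by_cases h23 : w2 = w3
  · subst h23
    have e1 : ln r w1 w2 = ln r o o₁ := h.ln_eq hoo h13 hw1 hw3
    have e2 : ln r w1 w2 = ln r u u₁ := h.ln_eq huu h13 hw1' hw2
    have hu2 : u ∈ ln r o o₁ := by
      rw [← e1, e2]; exact NPS.left_mem u u₁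
    exact ho₁' (h.plane_of hoo hou (NPS.left_mem o o₁) hu2 ho hu (NPS.right_mem o o₁))
  · have hx3 : r x w3 := hw3 x hxo hxo₁
    have hx2 : r x w2 := hw2 x hxu hxu₁
    have hxv : r x v := h.plane_of hvv h23 hw2' hw3' hx2 hx3 (NPS.left_mem v v₁)
    have hxp : x = p := h.plane_unique hou hvn hxo hxu hxv ho hu hv
    subst hxp
    exact ho₁' hxo₁

/-- a point of the line `oo'` on `ℓ` is unique -/
theorem NPS.dir_unique (h : NPS r) {p' o u a b : P} (hou : o ≠ u) (ho : ¬ r p' o)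
    (ha : r p' a) (hb : r p' b) (ha' : a ∈ ln r o u) (hb' : b ∈ ln r o u) : a = b := by
  by_contra hab
  exact ho (h.plane_of hou hab ha' hb' ha hb (NPS.left_mem o u))

/-- the sixth side of a quadrangle is determined by the others -/
theorem NPS.quad_aux (h : NPS r) {p p' e a b c s o u o' u' o₁ u₁ o₁' u₁' : P}
    (ho : r p o) (hu : r p u) (ho' : r p o') (hu' : r p u')
    (no : ¬ r p' o) (nu : ¬ r p' u) (no' : ¬ r p' o') (nu' : ¬ r p' u')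
    (ho₁ : r p' o₁) (hu₁ : r p' u₁) (ho₁' : r p' o₁') (hu₁' : r p' u₁')
    (no₁ : ¬ r p o₁) (nu₁ : ¬ r p u₁) (no₁' : ¬ r p o₁') (nu₁' : ¬ r p u₁')
    (hou : o ≠ u) (huo' : u ≠ o') (ho'u' : o' ≠ u') (hoo' : o ≠ o') (huu' : u ≠ u')
    (hou' : o ≠ u') (hou₁ : o₁ ≠ u₁) (huo₁' : u₁ ≠ o₁') (ho'u₁' : o₁' ≠ u₁')
    (hoo₁' : o₁ ≠ o₁') (huu₁' : u₁ ≠ u₁') (hou₁' : o₁ ≠ u₁')
    (he : r p' e) (ha : r p' a) (hb : r p' b) (hs' : r p' s)
    (hae : a ≠ e) (hbe : b ≠ e)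
    (h1 : a ∈ ln r o u) (h2 : b ∈ ln r u o') (h3 : c ∈ ln r o' u') (h4 : e ∈ ln r o o')
    (h5 : e ∈ ln r u u') (h6 : s ∈ ln r o u')
    (k1 : a ∈ ln r o₁ u₁) (k2 : b ∈ ln r u₁ o₁') (k3 : c ∈ ln r o₁' u₁')
    (k4 : e ∈ ln r o₁ o₁') (k5 : e ∈ ln r u₁ u₁') :
    s ∈ ln r o₁ u₁' := by
  have hn1 : o' ∉ ln r o u := by
    intro hh
    have e1 : ln r o o' = ln r o u := h.ln_eq hou hoo' (NPS.left_mem o u) hh
    exact hae (h.dir_unique hou no ha he h1 (e1 ▸ h4))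
  have hn2 : u' ∉ ln r o' u := by
    intro hh
    have e1 : ln r u u' = ln r o' u := h.ln_eq huo'.symm huu' (NPS.right_mem o' u) hh
    exact hbe (h.dir_unique huo'.symm no' hb he (by rw [ln_comm]; exact h2) (e1 ▸ h5))
  obtain ⟨O, hO1, hO2, hO3⟩ := h.concur ho hu ho' no nu no' ho₁ hu₁ ho₁' no₁ nu₁ no₁' hou huo'
    hoo' hou₁ huo₁' hoo₁' h1 k1 h2 k2 h4 k4 hn1
  obtain ⟨O', hO1', hO2', hO3'⟩ := h.concur ho' hu hu' no' nu nu' ho₁' hu₁ hu₁' no₁' nu₁ nu₁'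
    huo'.symm huu' ho'u' huo₁'.symm huu₁' ho'u₁' (by rw [ln_comm]; exact h2)
    (by rw [ln_comm]; exact k2) h5 k5 h3 k3 hn2
  have hoo₁ : o ≠ o₁ := fun hh => no (hh ▸ ho₁)
  have huu₁ : u ≠ u₁ := fun hh => nu (hh ▸ hu₁)
  have ho'o₁' : o' ≠ o₁' := fun hh => no' (hh ▸ ho₁')
  have hu'u₁' : u' ≠ u₁' := fun hh => nu' (hh ▸ hu₁')
  have hOO : O = O' := by
    by_contra hne
    have e1 : ln r O O' = ln r o' o₁' := h.ln_eq ho'o₁' hne hO3 hO1'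
    have e2 : ln r O O' = ln r u u₁ := h.ln_eq huu₁ hne hO2 hO2'
    have hu2 : u ∈ ln r o' o₁' := by
      rw [← e1, e2]; exact NPS.left_mem u u₁
    exact no₁' (h.plane_of ho'o₁' huo'.symm (NPS.left_mem o' o₁') hu2 ho' hu
      (NPS.right_mem o' o₁'))
  subst hOO
  obtain ⟨x, hxo, hxo₁, hxu', hxu₁'⟩ := h.coplanar hoo₁ hu'u₁' hO1 hO3'
  obtain ⟨w, hw, hw'⟩ := h.meet hou' hou₁' hxo hxu' hxo₁ hxu₁'
  have hpw : r p w := hw p ho hu'
  have hp'w : r p' w := hw' p' ho₁ hu₁'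
  have hws : w = s := h.dir_unique hou' no hp'w hs' hw h6
  exact hws ▸ hw'

theorem NPS.quad_unique (h : NPS r) {ℓ : Set P} (hℓ : TI r ℓ) {p p' e a b c s s' : P}
    (hp : p ∈ ℓ) (hp' : p' ∈ ℓ) (hpp : p ≠ p') (he : e ∈ ℓ) (ha : a ∈ ℓ) (hb : b ∈ ℓ)
    (hs : s ∈ ℓ) (hs' : s' ∈ ℓ) (hae : a ≠ e) (hbe : b ≠ e)
    (h1 : Quad r ℓ p e a b c s) (h2 : Quad r ℓ p' e a b c s') : s = s' := by
  have hℓ' := hℓ p hp p' hp' hpp
  obtain ⟨o, u, o', u', ho, hu, ho', hu', no, nu, no', nu', d1, d2, d3, d4, d5, d6, i1, i2, i3,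
    i4, i5, i6⟩ := h1
  obtain ⟨o₁, u₁, o₁', u₁', ho₁, hu₁, ho₁', hu₁', no₁, nu₁, no₁', nu₁', f1, f2, f3, f4, f5, f6,
    j1, j2, j3, j4, j5, j6⟩ := h2
  have hoff : ∀ z, r p z → z ∉ ℓ → ¬ r p' z := fun z h1 h2 h3 => h2 ((hℓ' z).2 ⟨h1, h3⟩)
  have hoff' : ∀ z, r p' z → z ∉ ℓ → ¬ r p z := fun z h1 h2 h3 => h2 ((hℓ' z).2 ⟨h3, h1⟩)
  have hmem := h.quad_aux ho hu ho' hu' (hoff _ ho no) (hoff _ hu nu) (hoff _ ho' no')
    (hoff _ hu' nu') ho₁ hu₁ ho₁' hu₁' (hoff' _ ho₁ no₁) (hoff' _ hu₁ nu₁) (hoff' _ ho₁' no₁')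
    (hoff' _ hu₁' nu₁') d1 d2 d3 d4 d5 d6 f1 f2 f3 f4 f5 f6 ((hℓ' e).1 he).2 ((hℓ' a).1 ha).2
    ((hℓ' b).1 hb).2 ((hℓ' s).1 hs).2 hae hbe i1 i2 i3 i4 i5 i6 j1 j2 j3 j4 j5
  exact h.dir_unique f6 (hoff' _ ho₁ no₁) ((hℓ' s).1 hs).1 ((hℓ' s').1 hs').1 hmem j6

/-- relabelling of a quadrangle -/
theorem Quad.relabel {ℓ : Set P} {p e a b c s : P} (h : Quad r ℓ p e a b c s) :
    Quad r ℓ p e b a s c := by
  obtain ⟨o, u, o', u', ho, hu, ho', hu', no, nu, no', nu', d1, d2, d3, d4, d5, d6, i1, i2, i3,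
    i4, i5, i6⟩ := h
  exact ⟨o', u, o, u', ho', hu, ho, hu', no', nu, no, nu', d2.symm, d1.symm, d6, d4.symm, d5,
    d3, by rw [ln_comm]; exact i2, by rw [ln_comm]; exact i1, i6, by rw [ln_comm]; exact i4, i5,
    i3⟩

/-- different `c` give different values -/
theorem NPS.quad_inj (h : NPS r) {ℓ : Set P} (hℓ : TI r ℓ) {p p' e a b c c' s : P}
    (hp : p ∈ ℓ) (hp' : p' ∈ ℓ) (hpp : p ≠ p') (he : e ∈ ℓ) (ha : a ∈ ℓ) (hb : b ∈ ℓ)
    (hc : c ∈ ℓ) (hc' : c' ∈ ℓ) (hae : a ≠ e) (hbe : b ≠ e)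
    (h1 : Quad r ℓ p e a b c s) (h2 : Quad r ℓ p' e a b c' s) : c = c' :=
  h.quad_unique hℓ hp hp' hpp he hb ha hc hc' hbe hae h1.relabel h2.relabel

/-- the value is different from `e`, `a`, `c` -/
theorem NPS.quad_ne (h : NPS r) {ℓ : Set P} (hℓ : TI r ℓ) {p p' e a b c s : P}
    (hp : p ∈ ℓ) (hp' : p' ∈ ℓ) (hpp : p ≠ p') (he : e ∈ ℓ) (ha : a ∈ ℓ)
    (hc : c ∈ ℓ) (hae : a ≠ e) (hce : c ≠ e)
    (h1 : Quad r ℓ p e a b c s) : s ≠ e ∧ s ≠ a ∧ s ≠ c := by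
  have hℓ' := hℓ p hp p' hp' hpp
  obtain ⟨o, u, o', u', ho, hu, ho', hu', no, nu, no', nu', d1, d2, d3, d4, d5, d6, i1, i2, i3,
    i4, i5, i6⟩ := h1
  have hoff : ∀ z, r p z → z ∉ ℓ → ¬ r p' z := fun z h1 h2 h3 => h2 ((hℓ' z).2 ⟨h1, h3⟩)
  have he' := ((hℓ' e).1 he).2
  have ha' := ((hℓ' a).1 ha).2
  have hc' := ((hℓ' c).1 hc).2
  have hoe : o ≠ e := fun hh => no (hh ▸ he)
  have hoa : o ≠ a := fun hh => no (hh ▸ ha)
  have hu'c : u' ≠ c := fun hh => nu' (hh ▸ hc)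
  refine ⟨?_, ?_, ?_⟩
  · rintro rfl
    -- `o, u', o', u` are all on the line `o e`
    have e1 : ln r o s = ln r o u' := h.ln_eq d6 hoe (NPS.left_mem o u') i6
    have hu's : u' ≠ s := fun hh => nu' (hh ▸ he)
    have hu'mem : u' ∈ ln r o s := by rw [e1]; exact NPS.right_mem o u'
    have e2 : ln r u' s = ln r o s := h.ln_eq hoe hu's hu'mem (NPS.right_mem o s)
    have e3 : ln r u' s = ln r u u' := h.ln_eq d5 hu's (NPS.right_mem u u') i5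
    have humem : u ∈ ln r o s := by rw [← e2, e3]; exact NPS.left_mem u u'
    have e4 : ln r o u = ln r o s := h.ln_eq hoe d1 (NPS.left_mem o s) humem
    exact hae (h.dir_unique hoe (hoff _ ho no) ha' he' (e4 ▸ i1) (NPS.right_mem o s))
  · rintro rfl
    have e1 : ln r o s = ln r o u' := h.ln_eq d6 hoa (NPS.left_mem o u') i6
    have e2 : ln r o s = ln r o u := h.ln_eq d1 hoa (NPS.left_mem o u) i1
    have hu'mem : u' ∈ ln r o s := by rw [e1]; exact NPS.right_mem o u'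
    have humem : u ∈ ln r o s := by rw [e2]; exact NPS.right_mem o u
    have e3 : ln r u u' = ln r o s := h.ln_eq hoa d5 humem hu'mem
    exact hae (h.dir_unique hoa (hoff _ ho no) ha' he' (NPS.right_mem o s) (e3 ▸ i5))
  · rintro rfl
    have e1 : ln r u' s = ln r o u' := h.ln_eq d6 hu'c (NPS.right_mem o u') i6
    have e2 : ln r u' s = ln r o' u' := h.ln_eq d3 hu'c (NPS.right_mem o' u') i3
    have homem : o ∈ ln r u' s := by rw [e1]; exact NPS.left_mem o u'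
    have ho'mem : o' ∈ ln r u' s := by rw [e2]; exact NPS.left_mem o' u'
    have e3 : ln r o o' = ln r u' s := h.ln_eq hu'c d4 homem ho'mem
    exact hce (h.dir_unique hu'c (hoff _ hu' nu') hc' he' (NPS.right_mem u' s) (e3 ▸ i4))

/-- existence -/
theorem NPS.quad_exists (h : NPS r) {ℓ : Set P} (hℓ : TI r ℓ) {p p' e a b c o : P}
    (hp : p ∈ ℓ) (hp' : p' ∈ ℓ) (hpp : p ≠ p') (he : e ∈ ℓ) (ha : a ∈ ℓ) (hb : b ∈ ℓ)
    (hc : c ∈ ℓ) (hae : a ≠ e) (hbe : b ≠ e) (hce : c ≠ e) (hab : a ≠ b) (hbc : b ≠ c)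
    (hpo : r p o) (ho : o ∉ ℓ) : ∃ s ∈ ℓ, Quad r ℓ p e a b c s := by
  have hℓ' := hℓ p hp p' hp' hpp
  have hoff : ∀ z, r p z → z ∉ ℓ → ¬ r p' z := fun z h1 h2 h3 => h2 ((hℓ' z).2 ⟨h1, h3⟩)
  have hpe := ((hℓ' e).1 he).1
  have hpa := ((hℓ' a).1 ha).1
  have hpb := ((hℓ' b).1 hb).1
  have hpc := ((hℓ' c).1 hc).1
  have he' := ((hℓ' e).1 he).2
  have ha' := ((hℓ' a).1 ha).2
  have hb' := ((hℓ' b).1 hb).2
  have hc' := ((hℓ' c).1 hc).2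
  -- a point of `ℓ` on a line through a point off `ℓ`
  have key : ∀ z x y, r p z → z ∉ ℓ → x ∈ ℓ → y ∈ ℓ → y ∈ ln r z x → y = x := by
    intro z x y hz hz' hx hy hyx
    have hzx : z ≠ x := fun hh => hz' (hh ▸ hx)
    exact h.dir_unique hzx (hoff _ hz hz') ((hℓ' y).1 hy).2 ((hℓ' x).1 hx).2 hyx
      (NPS.right_mem z x)
  have hne : ∀ z x, z ∉ ℓ → x ∈ ℓ → z ≠ x := fun z x hz hx hh => hz (hh ▸ hx)
  -- the point `u`
  obtain ⟨u, hu1, huo, hua⟩ := h.three o a (hne o a ho ha)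
  have hpu : r p u := hu1 p hpo hpa
  have hu : u ∉ ℓ := fun hh => hua (key o a u hpo ho ha hh hu1)
  have i1 : a ∈ ln r o u := by
    have := h.ln_eq (hne o a ho ha) huo.symm (NPS.left_mem o a) hu1
    rw [this]; exact NPS.right_mem o a
  have hd1 : o ≠ u := huo.symm
  -- the point `o'`
  obtain ⟨o', ho'1, ho'2⟩ := h.meet (hne u b hu hb) (hne o e ho he) hpu hpb hpo hpe
  have hpo' : r p o' := ho'1 p hpu hpb
  have ho' : o' ∉ ℓ := by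
    intro hh
    have h1 := key u b o' hpu hu hb hh ho'1
    have h2 := key o e o' hpo ho he hh ho'2
    exact hbe (h1.symm.trans h2)
  have hd2 : u ≠ o' := by
    rintro rfl
    -- `u` on the line `o e`
    have e1 := h.ln_eq (hne o e ho he) hd1 (NPS.left_mem o e) ho'2
    exact hae (h.dir_unique (hne o e ho he) (hoff _ hpo ho) ha' he' (e1 ▸ i1)
      (NPS.right_mem o e))
  have hd4 : o ≠ o' := by
    rintro rfl
    -- `o` on the line `u b`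
    have e1 := h.ln_eq (hne u b hu hb) hd1 ho'1 (NPS.left_mem u b)
    exact hab (h.dir_unique (hne u b hu hb) (hoff _ hpu hu) ha' hb' (e1 ▸ i1)
      (NPS.right_mem u b))
  have i2 : b ∈ ln r u o' := by
    have := h.ln_eq (hne u b hu hb) hd2 (NPS.left_mem u b) ho'1
    rw [this]; exact NPS.right_mem u b
  have i4 : e ∈ ln r o o' := by
    have := h.ln_eq (hne o e ho he) hd4 (NPS.left_mem o e) ho'2
    rw [this]; exact NPS.right_mem o e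
  -- the point `u'`
  obtain ⟨u', hu'1, hu'2⟩ := h.meet (hne o' c ho' hc) (hne u e hu he) hpo' hpc hpu hpe
  have hpu' : r p u' := hu'1 p hpo' hpc
  have hu' : u' ∉ ℓ := by
    intro hh
    have h1 := key o' c u' hpo' ho' hc hh hu'1
    have h2 := key u e u' hpu hu he hh hu'2
    exact hce (h1.symm.trans h2)
  have hd3 : o' ≠ u' := by
    rintro rfl
    have e1 := h.ln_eq (hne u e hu he) hd2 (NPS.left_mem u e) hu'2
    exact hbe (h.dir_unique (hne u e hu he) (hoff _ hpu hu) hb' he' (e1 ▸ i2)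
      (NPS.right_mem u e))
  have hd5 : u ≠ u' := by
    rintro rfl
    have e1 := h.ln_eq (hne o' c ho' hc) hd2 hu'1 (NPS.left_mem o' c)
    exact hbc (h.dir_unique (hne o' c ho' hc) (hoff _ hpo' ho') hb' hc' (e1 ▸ i2)
      (NPS.right_mem o' c))
  have i5 : e ∈ ln r u u' := by
    have := h.ln_eq (hne u e hu he) hd5 (NPS.left_mem u e) hu'2
    rw [this]; exact NPS.right_mem u e
  have i3 : c ∈ ln r o' u' := by
    have := h.ln_eq (hne o' c ho' hc) hd3 (NPS.left_mem o' c) hu'1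
    rw [this]; exact NPS.right_mem o' c
  have hd6 : o ≠ u' := by
    rintro rfl
    have e1 := h.ln_eq (hne u e hu he) hd1 hu'2 (NPS.left_mem u e)
    exact hae (h.dir_unique (hne u e hu he) (hoff _ hpu hu) ha' he' (e1 ▸ i1)
      (NPS.right_mem u e))
  -- the value
  obtain ⟨s, hs1, hs2⟩ := h.meet hd6 hae hpo hpu' hpa hpe
  have hsℓ : s ∈ ℓ := (hℓ' s).2 ⟨hs2 p hpa hpe, hs2 p' ha' he'⟩
  exact ⟨s, hsℓ, o, u, o', u', hpo, hpu, hpo', hpu', ho, hu, ho', hu', hd1, hd2, hd3, hd4, hd5,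
    hd6, i1, i2, i3, i4, i5, hs1⟩

end Pool.Agent.MP3c1a32
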