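import Pool.Agent.Lib.MP_3c1a32_coL.LC

/-! MP_3c1a32_co, `μ = 2 (q + 1)`: blocks and the transfer of quadrangles -/

namespace Pool.Agent.MP3c1a32

variable {V : Type} [Finite V] {G : SimpleGraph V} {q : ℕ}

theorem IsBlock.mem_iff (h : Base G q) {C : Set V} (hC : IsBlock G q C) {y p p' w : V}
    (hy : y ∈ C) (hp : p ∈ C) (hp' : p' ∈ C) (hyp : y ≠ p) (hyp' : y ≠ p') (hpp : p ≠ p')
    (hw : G.Adj y w) : w ∈ C ↔ (p = w ∨ G.Adj p w) ∧ (p' = w ∨ G.Adj p' w) := by
  constructor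
  · intro hwC
    constructor
    · by_cases h1 : p = w
      · exact Or.inl h1
      · exact Or.inr (hC.2 p hp w hwC h1)
    · by_cases h1 : p' = w
      · exact Or.inl h1
      · exact Or.inr (hC.2 p' hp' w hwC h1)
  · rintro ⟨h1, h2⟩
    rcases h1 with h1 | h1
    · rw [← h1]; exact hp
    rcases h2 with h2 | h2
    · rw [← h2]; exact hp'
    have hS := h.tri y p p' (hC.2 y hy p hp hyp) (hC.2 y hy p' hp' hyp') (hC.2 p hp p' hp' hpp)
    have hsub : C \ {y, p, p'} ⊆ {w | G.Adj y w ∧ G.Adj p w ∧ G.Adj p' w} := by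
      rintro v ⟨hv, hv'⟩
      simp only [Set.mem_insert_iff, Set.mem_singleton_iff, not_or] at hv'
      exact ⟨hC.2 y hy v hv (Ne.symm hv'.1), hC.2 p hp v hv (Ne.symm hv'.2.1),
        hC.2 p' hp' v hv (Ne.symm hv'.2.2)⟩
    have h3 : ({y, p, p'} : Set V).ncard = 3 := by
      rw [Set.ncard_eq_three]
      exact ⟨y, p, p', hyp, hyp', hpp, rfl⟩
    have h4 : (C \ {y, p, p'}).ncard = q - 1 := by
      rw [Set.ncard_sdiff (by
        rintro v hv
        rcases hv with rfl | rfl | rfl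
        · exact hy
        · exact hp
        · exact hp') (Set.toFinite _), h3, hC.1]
      omega
    have h5 := Set.eq_of_subset_of_ncard_le hsub (by rw [hS, h4]) (Set.toFinite _)
    have h6 : w ∈ C \ {y, p, p'} := by
      rw [h5]
      exact ⟨hw, h1, h2⟩
    exact h6.1

theorem exists_off (h : Base G q) (hq : 1 ≤ q) {C : Set V} (hC : IsBlock G q C) {y p : V}
    (hy : y ∈ C) (hp : p ∈ C) (hyp : y ≠ p) : ∃ o, G.Adj y o ∧ G.Adj p o ∧ o ∉ C := by
  by_contra hcon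
  push Not at hcon
  have h1 := h.two y p (hC.2 y hy p hp hyp)
  have hsub : {z | G.Adj y z ∧ G.Adj p z} ⊆ C \ {y, p} := by
    rintro v ⟨hv, hv'⟩
    refine ⟨hcon v hv hv', ?_⟩
    simp only [Set.mem_insert_iff, Set.mem_singleton_iff, not_or]
    exact ⟨hv.ne', hv'.ne'⟩
  have h2 := Set.ncard_le_ncard hsub (Set.toFinite _)
  have h3 : (C \ {y, p}).ncard = q := by
    rw [Set.ncard_sdiff (by
      rintro v hv
      rcases hv with rfl | rfl
      · exact hy
      · exact hp) (Set.toFinite _), Set.ncard_pair hyp, hC.1]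
    omega
  rw [h1, h3] at h2
  nlinarith

/-- transfer of a direction `d ∉ {y, p}` -/
theorem Ln_swap (h : Base G q) (hm : MuLow G q) (hq : 2 ≤ q) {C : Set V} (hC : IsBlock G q C)
    {y p z z' d : V} (hy : y ∈ C) (hp : p ∈ C) (hyp : y ≠ p) (hz : G.Adj y z) (hz' : G.Adj p z)
    (hzC : z ∉ C) (hw : G.Adj y z') (hw' : G.Adj p z') (hwC : z' ∉ C) (hne : z ≠ z')
    (hd : d ∈ C) (hdy : d ≠ y) (hdp : d ≠ p) (h1 : Ln G y z z' d) : Ln G p z z' d := by
  by_cases hadj : G.Adj z z'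
  · exfalso
    apply hzC
    rw [hC.mem_iff h hy hp hd hyp (Ne.symm hdy) (Ne.symm hdp) hz]
    refine ⟨Or.inr hz', ?_⟩
    rcases h1.2 z hz (Or.inl rfl) (Or.inr hadj) with h2 | h2
    · exact Or.inl h2.symm
    · exact Or.inr h2.symm
  · rw [h.Ln_iff hm hq hz' hw' hne hadj (hC.2 p hp d hd (Ne.symm hdp))]
    exact (h.Ln_iff hm hq hz hw hne hadj (hC.2 y hy d hd (Ne.symm hdy))).1 h1

/-- transfer of the direction of the cliques -/
theorem Ln_swap' (h : Base G q) (hm : MuLow G q) (hq : 2 ≤ q) {C : Set V} (hC : IsBlock G q C)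
    {y p z z' : V} (hy : y ∈ C) (hp : p ∈ C) (hyp : y ≠ p) (hz : G.Adj y z) (hz' : G.Adj p z)
    (hzC : z ∉ C) (hw : G.Adj y z') (hw' : G.Adj p z') (hwC : z' ∉ C) (hne : z ≠ z')
    (h1 : Ln G y z z' p) : Ln G p z z' y := by
  by_cases hadj : G.Adj z z'
  · refine ⟨hC.2 p hp y hy (Ne.symm hyp), fun x hx hxz hxz' => ?_⟩
    by_cases hxy : x = y
    · exact Or.inl hxy
    rcases hxz with hxz | hxz
    · rw [hxz]; exact Or.inr hz.symm
    rcases hxz' with hxz' | hxz'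
    · rw [hxz']; exact Or.inr hw.symm
    exact Or.inr (h.diamond p z z' x y hz' hw' hadj hx hxz.symm hxz'.symm
      (hC.2 p hp y hy (Ne.symm hyp)) hz.symm hw.symm hxy)
  · exfalso
    exact G.loopless.irrefl p ((h.Ln_iff hm hq hz hw hne hadj (hC.2 y hy p hp hyp)).1 h1 p
      hz'.symm hw'.symm)

end Pool.Agent.MP3c1a32
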