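import Pool.Agent.Lib.MP_3c1a32_coL.LE
import Pool.Agent.Lib.MP_3c1a32_coL.LF
import Pool.Agent.Lib.MP_3c1a32_coL.LDreg
import Pool.Agent.Lib.MP_3c1a32_coL.LDproj
import Pool.Agent.Lib.MP_3c1a32_coL.LA

/-! MP_3c1a32_co: a graph that is locally `GQ(q,q)` with `μ = 2 (q + 1)` has `q ≤ 4` -/

namespace Pool.Agent.MP3c1a32

variable {V : Type} [Finite V] {G : SimpleGraph V} {q : ℕ}

/-- a neighbourhood is a space with a null polarity -/
theorem Base.nps (h : Base G q) (hm : MuLow G q) (hq : 2 ≤ q) (y : V) : NPS (perp G y) where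
  refl a := Or.inl rfl
  symm a b hab := by
    rcases hab with hab | hab
    · exact Or.inl hab.symm
    · exact Or.inr hab.symm
  two a b hab := by
    obtain ⟨x, x', h1, h2, h3, h4, h5⟩ := h.exists_two hq y a b hab
    exact ⟨x, x', h1, h2, h3, h4, h5⟩
  reg a b x x' w c hab hxx h1 h2 h3 h4 h5 h6 h7 h8 :=
    h.reg hm hq y a b x x' w c hab hxx h1 h2 h3 h4 h5 h6 h7 h8
  proj a b c hab := h.proj' hm hq y a b c hab
  three a b hab := h.exists_three hm hq y a b hab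

/-- the line in terms of vertices -/
theorem Ln_iff_mem {y a b w : V} (ha : G.Adj y a) (hb : G.Adj y b) (hw : G.Adj y w) :
    Ln G y a b w ↔ (⟨w, hw⟩ : {z // G.Adj y z}) ∈ ln (perp G y) ⟨a, ha⟩ ⟨b, hb⟩ := by
  constructor
  · intro h x hxa hxb
    rcases h.2 x.1 x.2 (by
      rcases hxa with h1 | h1
      · exact Or.inl (congrArg Subtype.val h1)
      · exact Or.inr h1) (by
      rcases hxb with h1 | h1
      · exact Or.inl (congrArg Subtype.val h1)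
      · exact Or.inr h1) with h1 | h1
    · exact Or.inl (Subtype.ext h1)
    · exact Or.inr h1
  · intro h
    refine ⟨hw, fun x hx hxa hxb => ?_⟩
    rcases h ⟨x, hx⟩ (by
      rcases hxa with h1 | h1
      · exact Or.inl (Subtype.ext h1)
      · exact Or.inr h1) (by
      rcases hxb with h1 | h1
      · exact Or.inl (Subtype.ext h1)
      · exact Or.inr h1) with h1 | h1
    · exact Or.inl (congrArg Subtype.val h1)
    · exact Or.inr h1

/-- the line of a block in the neighbourhood of one of its vertices -/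
def bl (G : SimpleGraph V) (C : Set V) (y : V) : Set {z // G.Adj y z} := {z | z.1 ∈ C}

theorem IsBlock.ti (h : Base G q) {C : Set V} (hC : IsBlock G q C) {y : V} (hy : y ∈ C) :
    TI (perp G y) (bl G C y) := by
  rintro ⟨p, hyp⟩ hp ⟨p', hyp'⟩ hp' hpp ⟨w, hw⟩
  have hpp' : p ≠ p' := fun hh => hpp (Subtype.ext hh)
  have hmem := hC.mem_iff h hy hp hp' hyp.ne hyp'.ne hpp' hw
  constructor
  · intro h1
    obtain ⟨h2, h3⟩ := hmem.1 h1
    refine ⟨?_, ?_⟩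
    · rcases h2 with h2 | h2
      · exact Or.inl (Subtype.ext h2)
      · exact Or.inr h2
    · rcases h3 with h3 | h3
      · exact Or.inl (Subtype.ext h3)
      · exact Or.inr h3
  · rintro ⟨h2, h3⟩
    apply hmem.2
    refine ⟨?_, ?_⟩
    · rcases h2 with h2 | h2
      · exact Or.inl (congrArg Subtype.val h2)
      · exact Or.inr h2
    · rcases h3 with h3 | h3
      · exact Or.inl (congrArg Subtype.val h3)
      · exact Or.inr h3

/-- quadrangles in terms of vertices -/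
theorem quad_iff {C : Set V} {y p e a b c s : V} (hp : G.Adj y p) (hpC : p ∈ C)
    (he : G.Adj y e) (ha : G.Adj y a) (hb : G.Adj y b) (hc : G.Adj y c) (hs : G.Adj y s) :
    QuadV G C y p e a b c s ↔
      Quad (perp G y) (bl G C y) ⟨p, hp⟩ ⟨e, he⟩ ⟨a, ha⟩ ⟨b, hb⟩ ⟨c, hc⟩ ⟨s, hs⟩ := by
  have hperp : ∀ (z : V) (hz : G.Adj y z), z ∉ C →
      (perp G y ⟨p, hp⟩ ⟨z, hz⟩ ↔ G.Adj p z) := by
    intro z hz hzC
    constructor
    · rintro (h1 | h1)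
      · have h2 : p = z := congrArg Subtype.val h1
        exact absurd (h2 ▸ hpC) hzC
      · exact h1
    · exact Or.inr
  constructor
  · rintro ⟨o, u, o', u', ⟨h1, h2, h3⟩, ⟨h4, h5, h6⟩, ⟨h7, h8, h9⟩, ⟨h10, h11, h12⟩, d1, d2, d3,
      d4, d5, d6, i1, i2, i3, i4, i5, i6⟩
    exact ⟨⟨o, h1⟩, ⟨u, h4⟩, ⟨o', h7⟩, ⟨u', h10⟩, (hperp o h1 h3).2 h2, (hperp u h4 h6).2 h5,
      (hperp o' h7 h9).2 h8, (hperp u' h10 h12).2 h11, h3, h6, h9, h12,
      fun hh => d1 (congrArg Subtype.val hh), fun hh => d2 (congrArg Subtype.val hh),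
      fun hh => d3 (congrArg Subtype.val hh), fun hh => d4 (congrArg Subtype.val hh),
      fun hh => d5 (congrArg Subtype.val hh), fun hh => d6 (congrArg Subtype.val hh),
      (Ln_iff_mem _ _ _).1 i1, (Ln_iff_mem _ _ _).1 i2, (Ln_iff_mem _ _ _).1 i3,
      (Ln_iff_mem _ _ _).1 i4, (Ln_iff_mem _ _ _).1 i5, (Ln_iff_mem _ _ _).1 i6⟩
  · rintro ⟨⟨o, h1⟩, ⟨u, h4⟩, ⟨o', h7⟩, ⟨u', h10⟩, k1, k2, k3, k4, h3, h6, h9, h12, d1, d2, d3,
      d4, d5, d6, i1, i2, i3, i4, i5, i6⟩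
    exact ⟨o, u, o', u', ⟨h1, (hperp o h1 h3).1 k1, h3⟩, ⟨h4, (hperp u h4 h6).1 k2, h6⟩,
      ⟨h7, (hperp o' h7 h9).1 k3, h9⟩, ⟨h10, (hperp u' h10 h12).1 k4, h12⟩,
      fun hh => d1 (Subtype.ext hh), fun hh => d2 (Subtype.ext hh),
      fun hh => d3 (Subtype.ext hh), fun hh => d4 (Subtype.ext hh),
      fun hh => d5 (Subtype.ext hh), fun hh => d6 (Subtype.ext hh),
      (Ln_iff_mem _ _ _).2 i1, (Ln_iff_mem _ _ _).2 i2, (Ln_iff_mem _ _ _).2 i3,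
      (Ln_iff_mem _ _ _).2 i4, (Ln_iff_mem _ _ _).2 i5, (Ln_iff_mem _ _ _).2 i6⟩

/-- a further element of a block -/
theorem IsBlock.exists_notMem {C : Set V} (hC : IsBlock G q C) [DecidableEq V] (F : Finset V)
    (hF : F.card < q + 2) : ∃ x ∈ C, x ∉ F := by
  have h1 : (F : Set V).ncard < C.ncard := by rw [Set.ncard_coe_finset, hC.1]; exact hF
  obtain ⟨x, hx, hx'⟩ := Set.exists_mem_notMem_of_ncard_lt_ncard h1
  exact ⟨x, hx, fun hh => hx' (by exact_mod_cast hh)⟩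

/-- the value of a quadrangle does not depend on the plane -/
theorem exists_value (h : Base G q) (hm : MuLow G q) (hq : 2 ≤ q) {C : Set V}
    (hC : IsBlock G q C) {y e a b c : V} (hy : y ∈ C) (he : e ∈ C) (hey : e ≠ y) (ha : a ∈ C)
    (hay : a ≠ y) (hb : b ∈ C) (hby : b ≠ y) (hc : c ∈ C) (hcy : c ≠ y) (hae : a ≠ e)
    (hbe : b ≠ e) (hce : c ≠ e) (hab : a ≠ b) (hbc : b ≠ c) :
    ∃ s ∈ C, s ≠ y ∧ s ≠ e ∧ s ≠ a ∧ s ≠ c ∧ (∀ p ∈ C, p ≠ y → QuadV G C y p e a b c s) ∧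
      ∀ p ∈ C, p ≠ y → ∀ s' ∈ C, s' ≠ y → QuadV G C y p e a b c s' → s' = s := by
  classical
  have hN := h.nps hm hq y
  have hti := hC.ti h hy
  have hadj : ∀ z ∈ C, z ≠ y → G.Adj y z := fun z hz hzy => hC.2 y hy z hz hzy.symm
  have ae := hadj e he hey
  have aa := hadj a ha hay
  have ab := hadj b hb hby
  have ac := hadj c hc hcy
  have hsub : ∀ {z w : V} (hz : G.Adj y z) (hw : G.Adj y w), z ≠ w →
      (⟨z, hz⟩ : {z // G.Adj y z}) ≠ ⟨w, hw⟩ := fun _ _ hne hh => hne (congrArg Subtype.val hh)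
  -- uniqueness
  have huniq : ∀ p ∈ C, p ≠ y → ∀ p' ∈ C, p' ≠ y → p ≠ p' → ∀ s ∈ C, s ≠ y → ∀ s' ∈ C, s' ≠ y →
      QuadV G C y p e a b c s → QuadV G C y p' e a b c s' → s = s' := by
    intro p hp hpy p' hp' hp'y hpp s hs hsy s' hs' hs'y h1 h2
    have ap := hadj p hp hpy
    have ap' := hadj p' hp' hp'y
    have as := hadj s hs hsy
    have as' := hadj s' hs' hs'y
    have := hN.quad_unique hti (p := ⟨p, ap⟩) (p' := ⟨p', ap'⟩) (e := ⟨e, ae⟩) (a := ⟨a, aa⟩)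
      (b := ⟨b, ab⟩) (s := ⟨s, as⟩) (s' := ⟨s', as'⟩) (c := ⟨c, ac⟩) hp hp' (hsub _ _ hpp) he ha
      hb hs hs' (hsub _ _ hae) (hsub _ _ hbe) ((quad_iff ap hp ae aa ab ac as).1 h1)
      ((quad_iff ap' hp' ae aa ab ac as').1 h2)
    exact congrArg Subtype.val this
  -- existence
  have hex : ∀ p ∈ C, p ≠ y → ∃ s ∈ C, s ≠ y ∧ s ≠ e ∧ s ≠ a ∧ s ≠ c ∧
      QuadV G C y p e a b c s := by
    intro p hp hpy
    have ap := hadj p hp hpy
    obtain ⟨p', hp', hp'F⟩ := hC.exists_notMem {y, p} (by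
      have := Finset.card_le_two (a := y) (b := p)
      omega)
    simp only [Finset.mem_insert, Finset.mem_singleton, not_or] at hp'F
    have ap' := hadj p' hp' hp'F.1
    obtain ⟨o, ho, ho', hoC⟩ := exists_off h (by omega) hC hy hp hpy.symm
    obtain ⟨⟨s, as⟩, hs, hQ⟩ := hN.quad_exists hti (p := ⟨p, ap⟩) (p' := ⟨p', ap'⟩)
      (e := ⟨e, ae⟩) (a := ⟨a, aa⟩) (b := ⟨b, ab⟩) (c := ⟨c, ac⟩) (o := ⟨o, ho⟩) hp hp'
      (hsub _ _ (fun hh => hp'F.2 hh.symm)) he ha hb hc (hsub _ _ hae) (hsub _ _ hbe)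
      (hsub _ _ hce) (hsub _ _ hab) (hsub _ _ hbc) (Or.inr ho') hoC
    obtain ⟨n1, n2, n3⟩ := hN.quad_ne hti (p := ⟨p, ap⟩) (p' := ⟨p', ap'⟩)
      (e := ⟨e, ae⟩) (a := ⟨a, aa⟩) (b := ⟨b, ab⟩) (c := ⟨c, ac⟩) hp hp'
      (hsub _ _ (fun hh => hp'F.2 hh.symm)) he ha hc (hsub _ _ hae) (hsub _ _ hce) hQ
    exact ⟨s, hs, as.ne', fun hh => n1 (Subtype.ext hh), fun hh => n2 (Subtype.ext hh),
      fun hh => n3 (Subtype.ext hh), (quad_iff ap hp ae aa ab ac as).2 hQ⟩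
  obtain ⟨s, hs, hsy, hse, hsa, hsc, hQ⟩ := hex e he hey
  have hall : ∀ p ∈ C, p ≠ y → QuadV G C y p e a b c s := by
    intro p hp hpy
    obtain ⟨t, ht, hty, -, -, -, hQt⟩ := hex p hp hpy
    by_cases hpe : p = e
    · subst hpe; exact hQ
    · have := huniq e he hey p hp hpy (fun hh => hpe hh.symm) s hs hsy t ht hty hQ hQt
      rw [this]; exact hQt
  refine ⟨s, hs, hsy, hse, hsa, hsc, hall, ?_⟩
  intro p hp hpy s' hs' hs'y hQ'
  obtain ⟨p', hp', hp'F⟩ := hC.exists_notMem {y, p} (by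
    have := Finset.card_le_two (a := y) (b := p)
    omega)
  simp only [Finset.mem_insert, Finset.mem_singleton, not_or] at hp'F
  exact huniq p hp hpy p' hp' hp'F.1 (fun hh => hp'F.2 hh.symm) s' hs' hs'y s hs hsy hQ'
    (hall p' hp' hp'F.1)

/-- transfer of a quadrangle, `s ∉ {y, p}` -/
theorem QuadV.swap (h : Base G q) (hm : MuLow G q) (hq : 2 ≤ q) {C : Set V}
    (hC : IsBlock G q C) {y p e a b c s : V} (hy : y ∈ C) (hp : p ∈ C) (hyp : y ≠ p)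
    (he : e ∈ C) (hey : e ≠ y) (hep : e ≠ p) (ha : a ∈ C) (hay : a ≠ y) (hap : a ≠ p)
    (hb : b ∈ C) (hby : b ≠ y) (hbp : b ≠ p) (hc : c ∈ C) (hcy : c ≠ y) (hcp : c ≠ p)
    (hs : s ∈ C) (hsy : s ≠ y) (hsp : s ≠ p) (h1 : QuadV G C y p e a b c s) :
    QuadV G C p y e a b c s := by
  obtain ⟨o, u, o', u', ⟨h1, h2, h3⟩, ⟨h4, h5, h6⟩, ⟨h7, h8, h9⟩, ⟨h10, h11, h12⟩, d1, d2, d3,
    d4, d5, d6, i1, i2, i3, i4, i5, i6⟩ := h1
  exact ⟨o, u, o', u', ⟨h2, h1, h3⟩, ⟨h5, h4, h6⟩, ⟨h8, h7, h9⟩, ⟨h11, h10, h12⟩, d1, d2, d3,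
    d4, d5, d6, Ln_swap h hm hq hC hy hp hyp h1 h2 h3 h4 h5 h6 d1 ha hay hap i1,
    Ln_swap h hm hq hC hy hp hyp h4 h5 h6 h7 h8 h9 d2 hb hby hbp i2,
    Ln_swap h hm hq hC hy hp hyp h7 h8 h9 h10 h11 h12 d3 hc hcy hcp i3,
    Ln_swap h hm hq hC hy hp hyp h1 h2 h3 h7 h8 h9 d4 he hey hep i4,
    Ln_swap h hm hq hC hy hp hyp h4 h5 h6 h10 h11 h12 d5 he hey hep i5,
    Ln_swap h hm hq hC hy hp hyp h1 h2 h3 h10 h11 h12 d6 hs hsy hsp i6⟩

/-- transfer of a quadrangle, `s = p` -/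
theorem QuadV.swap' (h : Base G q) (hm : MuLow G q) (hq : 2 ≤ q) {C : Set V}
    (hC : IsBlock G q C) {y p e a b c : V} (hy : y ∈ C) (hp : p ∈ C) (hyp : y ≠ p)
    (he : e ∈ C) (hey : e ≠ y) (hep : e ≠ p) (ha : a ∈ C) (hay : a ≠ y) (hap : a ≠ p)
    (hb : b ∈ C) (hby : b ≠ y) (hbp : b ≠ p) (hc : c ∈ C) (hcy : c ≠ y) (hcp : c ≠ p)
    (h1 : QuadV G C y p e a b c p) : QuadV G C p y e a b c y := by
  obtain ⟨o, u, o', u', ⟨h1, h2, h3⟩, ⟨h4, h5, h6⟩, ⟨h7, h8, h9⟩, ⟨h10, h11, h12⟩, d1, d2, d3,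
    d4, d5, d6, i1, i2, i3, i4, i5, i6⟩ := h1
  exact ⟨o, u, o', u', ⟨h2, h1, h3⟩, ⟨h5, h4, h6⟩, ⟨h8, h7, h9⟩, ⟨h11, h10, h12⟩, d1, d2, d3,
    d4, d5, d6, Ln_swap h hm hq hC hy hp hyp h1 h2 h3 h4 h5 h6 d1 ha hay hap i1,
    Ln_swap h hm hq hC hy hp hyp h4 h5 h6 h7 h8 h9 d2 hb hby hbp i2,
    Ln_swap h hm hq hC hy hp hyp h7 h8 h9 h10 h11 h12 d3 hc hcy hcp i3,
    Ln_swap h hm hq hC hy hp hyp h1 h2 h3 h7 h8 h9 d4 he hey hep i4,
    Ln_swap h hm hq hC hy hp hyp h4 h5 h6 h10 h11 h12 d5 he hey hep i5,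
    Ln_swap' h hm hq hC hy hp hyp h1 h2 h3 h10 h11 h12 d6 i6⟩

theorem card_six {α : Type*} [DecidableEq α] (a b c d e f : α) :
    ({a, b, c, d, e, f} : Finset α).card ≤ 6 := by
  refine (Finset.card_insert_le _ _).trans ?_
  refine Nat.succ_le_succ ((Finset.card_insert_le _ _).trans ?_)
  refine Nat.succ_le_succ ((Finset.card_insert_le _ _).trans ?_)
  refine Nat.succ_le_succ ((Finset.card_insert_le _ _).trans ?_)
  exact Nat.succ_le_succ Finset.card_le_two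

/-- a block of a graph that is locally `GQ(q,q)` with `μ = 2 (q + 1)` has at most six vertices -/
theorem low_le_four (h : Base G q) (hm : MuLow G q) (hq : 2 ≤ q) {C : Set V}
    (hC : IsBlock G q C) : q ≤ 4 := by
  classical
  by_contra hq5
  have hq5' : 7 ≤ q + 2 := by omega
  -- six vertices of `C`
  obtain ⟨y, hy, -⟩ := hC.exists_notMem ∅ (by simp)
  obtain ⟨e, he, hne⟩ := hC.exists_notMem {y, y, y, y, y, y} (by
    have := card_six y y y y y y; omega)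
  obtain ⟨a, ha, hna⟩ := hC.exists_notMem {y, e, e, e, e, e} (by
    have := card_six y e e e e e; omega)
  obtain ⟨b, hb, hnb⟩ := hC.exists_notMem {y, e, a, a, a, a} (by
    have := card_six y e a a a a; omega)
  obtain ⟨c₁, hc₁, hnc₁⟩ := hC.exists_notMem {y, e, a, b, b, b} (by
    have := card_six y e a b b b; omega)
  obtain ⟨c₂, hc₂, hnc₂⟩ := hC.exists_notMem {y, e, a, b, c₁, c₁} (by
    have := card_six y e a b c₁ c₁; omega)
  simp only [Finset.mem_insert, Finset.mem_singleton, or_self, not_or, ← ne_eq] at hne hna hnb hnc₁ hnc₂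
  obtain ⟨hay, hae⟩ := hna
  obtain ⟨hby, hbe, hba⟩ := hnb
  obtain ⟨hc₁y, hc₁e, hc₁a, hc₁b⟩ := hnc₁
  obtain ⟨hc₂y, hc₂e, hc₂a, hc₂b, hc₂c₁⟩ := hnc₂
  have hadj : ∀ z ∈ C, z ≠ y → G.Adj y z := fun z hz hzy => hC.2 y hy z hz hzy.symm
  -- choose `c` with value different from `b`
  obtain ⟨c, hc, hcy, hce, hca, hcb, s, hs, hsy, hse, hsa, hsc, hsb, hall, huniq⟩ :
      ∃ c ∈ C, c ≠ y ∧ c ≠ e ∧ c ≠ a ∧ c ≠ b ∧ ∃ s ∈ C, s ≠ y ∧ s ≠ e ∧ s ≠ a ∧ s ≠ c ∧ s ≠ b ∧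
        (∀ p ∈ C, p ≠ y → QuadV G C y p e a b c s) ∧
        ∀ p ∈ C, p ≠ y → ∀ s' ∈ C, s' ≠ y → QuadV G C y p e a b c s' → s' = s := by
    obtain ⟨s₁, hs₁, hs₁y, hs₁e, hs₁a, hs₁c, hall₁, hun₁⟩ := exists_value h hm hq hC hy he hne ha
      hay hb hby hc₁ hc₁y hae hbe hc₁e hba.symm hc₁b.symm
    obtain ⟨s₂, hs₂, hs₂y, hs₂e, hs₂a, hs₂c, hall₂, hun₂⟩ := exists_value h hm hq hC hy he hne ha
      hay hb hby hc₂ hc₂y hae hbe hc₂e hba.symm hc₂b.symm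
    by_cases h1 : s₁ = b
    · by_cases h2 : s₂ = b
      · exfalso
        apply hc₂c₁
        have hN := h.nps hm hq y
        have hti := hC.ti h hy
        have ae := hadj e he hne
        have aa := hadj a ha hay
        have ab := hadj b hb hby
        have ac₁ := hadj c₁ hc₁ hc₁y
        have ac₂ := hadj c₂ hc₂ hc₂y
        have q1 := hall₁ e he hne
        have q2 := hall₂ a ha hay
        rw [h1] at q1
        rw [h2] at q2
        have := hN.quad_inj hti (p := ⟨e, ae⟩) (p' := ⟨a, aa⟩) (e := ⟨e, ae⟩) (a := ⟨a, aa⟩)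
          (b := ⟨b, ab⟩) (c := ⟨c₁, ac₁⟩) (c' := ⟨c₂, ac₂⟩) (s := ⟨b, ab⟩) he ha
          (fun hh => hae (congrArg Subtype.val hh).symm) he ha hb hc₁ hc₂
          (fun hh => hae (congrArg Subtype.val hh)) (fun hh => hbe (congrArg Subtype.val hh))
          ((quad_iff ae he ae aa ab ac₁ ab).1 q1) ((quad_iff aa ha ae aa ab ac₂ ab).1 q2)
        exact (congrArg Subtype.val this).symm
      · exact ⟨c₂, hc₂, hc₂y, hc₂e, hc₂a, hc₂b, s₂, hs₂, hs₂y, hs₂e, hs₂a, hs₂c, h2, hall₂, hun₂⟩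
    · exact ⟨c₁, hc₁, hc₁y, hc₁e, hc₁a, hc₁b, s₁, hs₁, hs₁y, hs₁e, hs₁a, hs₁c, h1, hall₁, hun₁⟩
  -- a seventh vertex
  obtain ⟨d, hd, hnd⟩ := hC.exists_notMem {y, e, a, b, c, s} (by
    have := card_six y e a b c s; omega)
  simp only [Finset.mem_insert, Finset.mem_singleton, not_or, ← ne_eq] at hnd
  obtain ⟨hdy, hde, hda, hdb, hdc, hds⟩ := hnd
  have ab : a ≠ b := hba.symm
  have bc : b ≠ c := hcb.symm
  -- step 1
  have q1 := hall s hs hsy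
  -- step 2
  have q2 : QuadV G C s y e a b c y := QuadV.swap' h hm hq hC hy hs hsy.symm he hne hse.symm ha
    hay hsa.symm hb hby hsb.symm hc hcy hsc.symm q1
  -- step 3
  obtain ⟨t, ht, hts, -, -, -, hallt, hunt⟩ := exists_value h hm hq hC hs he hse.symm ha hsa.symm
    hb hsb.symm hc hsc.symm hae hbe hce ab bc
  have hty : y = t := hunt y hy hsy.symm y hy hsy.symm q2
  subst hty
  have q3 := hallt d hd hds
  -- step 4
  have q4 : QuadV G C d s e a b c y := QuadV.swap h hm hq hC hs hd hds.symm he hse.symm hde.symm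
    ha hsa.symm hda.symm hb hsb.symm hdb.symm hc hsc.symm hdc.symm hy hsy.symm hdy.symm q3
  -- step 5
  obtain ⟨t', ht', ht'd, -, -, -, hallt', hunt'⟩ := exists_value h hm hq hC hd he hde.symm ha
    hda.symm hb hdb.symm hc hdc.symm hae hbe hce ab bc
  have hty' : y = t' := hunt' s hs hds.symm y hy hdy.symm q4
  subst hty'
  have q5 := hallt' y hy hdy.symm
  -- step 6
  have q6 : QuadV G C y d e a b c d := QuadV.swap' h hm hq hC hd hy hdy he hde.symm hne ha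
    hda.symm hay hb hdb.symm hby hc hdc.symm hcy q5
  -- step 7
  exact hds (huniq d hd hdy d hd hdy q6)

end Pool.Agent.MP3c1a32
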